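import Pool.Agent.N183.U9.Stm

/-!
Project RB, leaf PAR: forms in two groups of variables. By helper945.
-/

set_option autoImplicit false

namespace Pool.Agent.N945.RB

open Module Pool.Agent.N183.U9

/-- the form with the second group of variables fixed -/
noncomputable def cur {K V α β : Type} [Field K] [AddCommGroup V] [Module K V]
    (φ : MultilinearMap K (fun _ : α ⊕ β => V) K) :
    MultilinearMap K (fun _ : β => V) (MultilinearMap K (fun _ : α => V) K) :=
  (φ.domDomCongr (Equiv.sumComm α β)).currySum

theorem cur_apply {K V α β : Type} [Field K] [AddCommGroup V] [Module K V]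
    (φ : MultilinearMap K (fun _ : α ⊕ β => V) K) (w : β → V) (v : α → V) :
    cur φ w v = φ (Sum.elim v w) := by
  unfold cur
  rw [MultilinearMap.currySum_apply, MultilinearMap.domDomCongr_apply]
  congr 1
  funext i
  rcases i with i | i <;> rfl

theorem PAR : S_PAR := by
  intro K V _ _ _ _ α β _ _ _ _ φ P hφ
  obtain ⟨b, hbP, hbspan, hbli⟩ := exists_linearIndependent K P
  have hbfin : Finite b := hbli.finite
  have : Fintype b := Fintype.ofFinite b
  let e : Fin (Fintype.card b) ≃ b := (Fintype.equivFin b).symm
  let F : Fin (Fintype.card b) → MultilinearMap K (fun _ : α => V) K := fun j => (e j).1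
  have hFli : LinearIndependent K F := hbli.comp e e.injective
  have hFspan : Submodule.span K (Set.range F) = Submodule.span K P := by
    rw [← hbspan]
    congr 1
    ext x
    constructor
    · rintro ⟨j, rfl⟩
      exact (e j).2
    · intro hx
      exact ⟨e.symm ⟨x, hx⟩, by simp [F]⟩
  obtain ⟨g, hg⟩ := LinearMap.exists_leftInverse_of_injective (Fintype.linearCombination K F)
    (LinearMap.ker_eq_bot.2 hFli.fintypeLinearCombination_injective)
  have hg' : ∀ c : Fin (Fintype.card b) → K, g (∑ j, c j • F j) = c := by
    intro c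
    have h1 := LinearMap.congr_fun hg c
    rwa [LinearMap.comp_apply, Fintype.linearCombination_apply, LinearMap.id_apply] at h1
  have hcur : ∀ w : β → V, cur φ w = ∑ j, g (cur φ w) j • F j := by
    intro w
    obtain ⟨F0, hF0, hF0φ⟩ := hφ w
    have h1 : cur φ w = F0 := by
      ext v
      rw [cur_apply, hF0φ]
    rw [← hFspan, Submodule.mem_span_range_iff_exists_fun] at hF0
    obtain ⟨c, hc⟩ := hF0
    rw [h1, ← hc, hg']
  refine ⟨Fintype.card b, F, fun j => (LinearMap.proj j ∘ₗ g).compMultilinearMap (cur φ),
    fun j => hbP (e j).2, fun v => ?_, ?_, ?_⟩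
  · have h1 : v = Sum.elim (fun k => v (Sum.inl k)) (fun k => v (Sum.inr k)) := by
      funext i
      rcases i with i | i <;> rfl
    have h2 : φ v = cur φ (fun k => v (Sum.inr k)) (fun k => v (Sum.inl k)) := by
      rw [cur_apply, ← h1]
    rw [h2, hcur, sum_apply]
    refine Finset.sum_congr rfl fun j _ => ?_
    rw [smul_apply, smul_eq_mul, mul_comm]
    congr 1
  · intro R c d hd hR hRF j w
    have h0 : ∀ (i : Fin (Fintype.card b)) (v : α → V), F i (fun k => R.symm (v k)) =
        d⁻¹ * F i v := by
      intro i v
      have h1 := hRF (F i) (hbP (e i).2) (fun k => R.symm (v k))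
      simp only [LinearEquiv.apply_symm_apply] at h1
      rw [h1, ← mul_assoc, inv_mul_cancel₀ hd, one_mul]
    have h1 : cur φ (fun k => R (w k)) = (c / d) • cur φ w := by
      ext v
      rw [cur_apply, smul_apply, smul_eq_mul]
      have h2 : (Sum.elim v fun k => R (w k) : α ⊕ β → V) =
          fun i => R (Sum.elim (fun k => R.symm (v k)) w i) := by
        funext i
        rcases i with i | i
        · simp
        · rfl
      rw [h2, hR, ← cur_apply, hcur w, sum_apply, sum_apply,
        Finset.mul_sum, Finset.mul_sum]
      refine Finset.sum_congr rfl fun i _ => ?_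
      rw [smul_apply, smul_apply, smul_eq_mul, smul_eq_mul, h0]
      field_simp
    change g (cur φ fun k => R (w k)) j = c / d * g (cur φ w) j
    rw [h1, map_smul, Pi.smul_apply, smul_eq_mul]
  · intro p hp j w
    change g (cur φ fun k => p (w k)) j = g (cur φ w) j
    have h1 : cur φ (fun k => p (w k)) = cur φ w := by
      ext v
      rw [cur_apply, cur_apply, hp]
    rw [h1]

end Pool.Agent.N945.RB
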