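import Pool.Agent.N645.TB_KON

/-!
# Project TB: splitting an edge coloured amalgamation
-/

set_option autoImplicit false

namespace Pool.Agent.N945.TBSPLIT

open Finset

/-- Koenig's edge colouring theorem, as a statement -/
def SKon : Prop := ∀ {U A B : Type} [Fintype U] [DecidableEq A] [DecidableEq B] (a : U → A)
    (b : U → B) (m : ℕ) (_ : ∀ x, (univ.filter fun u => a u = x).card ≤ m)
    (_ : ∀ y, (univ.filter fun u => b u = y).card ≤ m),
    ∃ i : U → Fin m, (∀ u v, u ≠ v → a u = a v → i u ≠ i v) ∧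
      ∀ u v, u ≠ v → b u = b v → i u ≠ i v

/-- labels of the units of one edge -/
theorem labels (N M : ℕ) (w : ℕ → ℕ) (h : ∑ l ∈ range N, w l = M) :
    ∃ f : Fin M → ℕ, (∀ k, f k < N) ∧ ∀ l < N, (univ.filter fun k => f k = l).card = w l := by
  classical
  have hc : Fintype.card (Σ l : Fin N, Fin (w l)) = Fintype.card (Fin M) := by
    rw [Fintype.card_sigma, Fintype.card_fin, ← h, sum_range]
    simp
  obtain ⟨e⟩ := Fintype.card_eq.1 hc.symm
  refine ⟨fun k => (e k).1, fun k => (e k).1.2, fun l hl => ?_⟩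
  have h1 : (univ.filter fun k => ((e k).1 : ℕ) = l).card =
      (univ.filter fun s : (Σ l : Fin N, Fin (w l)) => (s.1 : ℕ) = l).card := by
    refine card_bij (fun k _ => e k) ?_ ?_ ?_
    · intro k hk
      rw [mem_filter] at hk ⊢
      exact ⟨mem_univ _, hk.2⟩
    · intro k _ k' _ hkk
      exact e.injective hkk
    · intro s hs
      rw [mem_filter] at hs
      exact ⟨e.symm s, by simpa using hs.2, by simp⟩
  have h2 : (univ.filter fun s : (Σ l : Fin N, Fin (w l)) => (s.1 : ℕ) = l).card =
      (univ : Finset (Fin (w l))).card := by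
    symm
    refine card_bij (fun j _ => ⟨⟨l, hl⟩, j⟩) ?_ ?_ ?_
    · intro j _
      simp
    · intro j _ j' _ hjj
      simpa using hjj
    · rintro ⟨⟨l', hl'⟩, j⟩ hs
      have h3 : l' = l := (mem_filter.1 hs).2
      subst h3
      exact ⟨j, mem_univ _, rfl⟩
  simp only at h1 ⊢
  rw [h1, h2, card_univ, Fintype.card_fin]

/-- symmetric labels of all edges -/
theorem labels_sym {V : Type} [Fintype V] [DecidableEq V] (H : SimpleGraph V) (m N : ℕ)
    (w : ℕ → V → V → ℕ) (hs : ∀ l u v, w l u v = w l v u)
    (h1 : ∀ u v, H.Adj u v → ∑ l ∈ range N, w l u v = m * m) :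
    ∃ lab : V → V → Fin (m * m) → ℕ, (∀ u v, lab u v = lab v u) ∧
      (∀ u v, H.Adj u v → ∀ k, lab u v k < N) ∧
      ∀ u v, H.Adj u v → ∀ l < N, (univ.filter fun k => lab u v k = l).card = w l u v := by
  classical
  have h2 : ∀ u v, ∃ f : Fin (m * m) → ℕ, H.Adj u v → (∀ k, f k < N) ∧
      ∀ l < N, (univ.filter fun k => f k = l).card = w l u v := by
    intro u v
    by_cases h : H.Adj u v
    · obtain ⟨f, hf⟩ := labels N (m * m) (fun l => w l u v) (h1 u v h)
      exact ⟨f, fun _ => hf⟩
    · exact ⟨fun _ => 0, fun h' => absurd h' h⟩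
  choose f hf using h2
  obtain ⟨e⟩ : Nonempty (V ≃ Fin (Fintype.card V)) := ⟨Fintype.equivFin V⟩
  refine ⟨fun u v => if e u ≤ e v then f u v else f v u, ?_, ?_, ?_⟩
  · intro u v
    simp only
    by_cases huv : e u ≤ e v
    · by_cases hvu : e v ≤ e u
      · have : u = v := e.injective (le_antisymm huv hvu)
        subst this
        rfl
      · rw [if_pos huv, if_neg hvu]
    · have hvu : e v ≤ e u := le_of_lt (not_le.1 huv)
      rw [if_neg huv, if_pos hvu]
  · intro u v huv k
    simp only
    split_ifs with h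
    · exact (hf u v huv).1 k
    · exact (hf v u huv.symm).1 k
  · intro u v huv l hl
    simp only
    split_ifs with h
    · exact (hf u v huv).2 l hl
    · rw [(hf v u huv.symm).2 l hl, hs]

/-- numbers with a given quotient -/
theorem div_fibre {m : ℕ} (j : Fin m) :
    (univ.filter fun k : Fin (m * m) => (k : ℕ) / m = (j : ℕ)).card ≤ m := by
  classical
  have h1 : (univ.filter fun k : Fin (m * m) => (k : ℕ) / m = (j : ℕ)).card ≤
      (range m).card := by
    refine card_le_card_of_injOn (fun k => (k : ℕ) % m) ?_ ?_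
    · intro k hk
      have hm : 0 < m := lt_of_le_of_lt (Nat.zero_le _) j.2
      simp only [coe_range, Set.mem_Iio]
      exact Nat.mod_lt _ hm
    · intro k hk k' hk' h
      have h2 : (k : ℕ) / m = (j : ℕ) := (mem_filter.1 hk).2
      have h3 : (k' : ℕ) / m = (j : ℕ) := (mem_filter.1 hk').2
      have h4 := Nat.div_add_mod (k : ℕ) m
      have h5 := Nat.div_add_mod (k' : ℕ) m
      simp only at h
      rw [h2, h] at h4
      rw [h3] at h5
      exact Fin.ext (by omega)
  rwa [card_range] at h1

/-- one step: a new vertex `v` -/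
theorem step (kon : SKon) {V : Type} [Fintype V] [DecidableEq V] (H : SimpleGraph V) (m N : ℕ)
    (hm : 0 < m) (w : ℕ → V → V → ℕ)
    (h2 : ∀ l u, l < N → ∑ v, w l u v ≤ m)
    (lab : V → V → Fin (m * m) → ℕ)
    (hlab1 : ∀ u v, H.Adj u v → ∀ k, lab u v k < N)
    (hlab2 : ∀ u v, H.Adj u v → ∀ l < N, (univ.filter fun k => lab u v k = l).card = w l u v)
    (v : V) (β : V → Fin (m * m) → Fin m)
    (hβ : ∀ u, H.Adj v u → ∀ j, (univ.filter fun k => β u k = j).card ≤ m) :
    ∃ i : V → Fin (m * m) → Fin m,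
      (∀ u u' k k', H.Adj v u → H.Adj v u' → lab v u k = lab v u' k' → i u k = i u' k' →
        u = u' ∧ k = k') ∧
      ∀ u k k', H.Adj v u → β u k = β u k' → i u k = i u k' → k = k' := by
  classical
  have ha : ∀ x : ℕ, (univ.filter fun p : {u // H.Adj v u} × Fin (m * m) =>
      lab v p.1 p.2 = x).card ≤ m := by
    intro x
    have e1 : (univ.filter fun p : {u // H.Adj v u} × Fin (m * m) => lab v p.1 p.2 = x) =
        (univ : Finset {u // H.Adj v u}).biUnion fun u =>
          (univ.filter fun k => lab v u k = x).image fun k => (u, k) := by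
      ext ⟨u, k⟩
      simp
    rw [e1]
    refine card_biUnion_le.trans ?_
    have e2 : ∀ u : {u // H.Adj v u},
        ((univ.filter fun k => lab v u k = x).image fun k => (u, k)).card =
        (univ.filter fun k => lab v u k = x).card := by
      intro u
      exact card_image_of_injective _ fun k k' h => (Prod.mk.inj h).2
    rw [sum_congr rfl fun u _ => e2 u]
    rcases Nat.lt_or_ge x N with hx | hx
    · rw [sum_congr rfl fun (u : {u // H.Adj v u}) _ => hlab2 v u u.2 x hx]
      refine le_trans ?_ (h2 x v hx)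
      have e3 : ∑ u : {u // H.Adj v u}, w x v u = ∑ u ∈ univ.filter (fun u => H.Adj v u), w x v u :=
        (sum_subtype (univ.filter fun u => H.Adj v u) (p := fun u => H.Adj v u)
          (by simp) (fun u => w x v u)).symm
      rw [e3]
      exact sum_le_sum_of_subset (filter_subset _ _)
    · have e3 : ∀ u : {u // H.Adj v u}, (univ.filter fun k => lab v u k = x).card = 0 := by
        intro u
        rw [card_eq_zero, filter_eq_empty_iff]
        intro k _ h
        have := hlab1 v u u.2 k
        omega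
      rw [sum_congr rfl fun u _ => e3 u]
      simp
  have hb : ∀ y : V × Fin m, (univ.filter fun p : {u // H.Adj v u} × Fin (m * m) =>
      ((p.1 : V), β p.1 p.2) = y).card ≤ m := by
    rintro ⟨u, j⟩
    by_cases hu : H.Adj v u
    · refine le_trans ?_ (hβ u hu j)
      refine card_le_card_of_injOn (fun p => p.2) ?_ ?_
      · rintro ⟨u', k⟩ hp
        have h3 := (mem_filter.1 hp).2
        rw [Prod.mk.injEq] at h3
        simp only at h3
        refine mem_filter.2 ⟨mem_univ _, ?_⟩
        simp only
        rw [← h3.1]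
        exact h3.2
      · rintro ⟨u', k⟩ hp ⟨u'', k'⟩ hp' h
        have h3 := (mem_filter.1 hp).2
        have h4 := (mem_filter.1 hp').2
        rw [Prod.mk.injEq] at h3 h4
        simp only at h3 h4 h
        rw [Prod.mk.injEq]
        exact ⟨Subtype.ext (h3.1.trans h4.1.symm), h⟩
    · have e1 : (univ.filter fun p : {u // H.Adj v u} × Fin (m * m) =>
          ((p.1 : V), β p.1 p.2) = (u, j)) = ∅ := by
        rw [filter_eq_empty_iff]
        rintro ⟨u', k⟩ _ h
        rw [Prod.mk.injEq] at h
        exact hu (h.1 ▸ u'.2)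
      rw [e1]
      simp
  obtain ⟨i, hi1, hi2⟩ := kon (fun p : {u // H.Adj v u} × Fin (m * m) => lab v p.1 p.2)
    (fun p => ((p.1 : V), β p.1 p.2)) m ha hb
  refine ⟨fun u k => if h : H.Adj v u then i (⟨u, h⟩, k) else ⟨0, hm⟩, ?_, ?_⟩
  · intro u u' k k' hu hu' hl hii
    simp only [hu, hu', dif_pos] at hii
    by_contra hcon
    refine hi1 (⟨u, hu⟩, k) (⟨u', hu'⟩, k') ?_ hl hii
    intro h
    rw [Prod.mk.injEq, Subtype.mk.injEq] at h
    exact hcon h
  · intro u k k' hu hbb hii
    simp only [hu, dif_pos] at hii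
    by_contra hcon
    refine hi2 (⟨u, hu⟩, k) (⟨u, hu⟩, k') ?_ ?_ hii
    · intro h
      rw [Prod.mk.injEq] at h
      exact hcon h.2
    · simp only
      rw [hbb]

/-- the recursion over the vertices -/
theorem recur (kon : SKon) {V : Type} [Fintype V] [DecidableEq V] (H : SimpleGraph V) (m N : ℕ)
    (hm : 0 < m) (w : ℕ → V → V → ℕ)
    (h2 : ∀ l u, l < N → ∑ v, w l u v ≤ m)
    (lab : V → V → Fin (m * m) → ℕ)
    (hlab1 : ∀ u v, H.Adj u v → ∀ k, lab u v k < N)
    (hlab2 : ∀ u v, H.Adj u v → ∀ l < N, (univ.filter fun k => lab u v k = l).card = w l u v)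
    (e : V ≃ Fin (Fintype.card V)) (n : ℕ) :
    ∃ idx : V → V → Fin (m * m) → Fin m,
      (∀ v, (e v : ℕ) < n → ∀ u u' k k', H.Adj v u → H.Adj v u' → lab v u k = lab v u' k' →
        idx v u k = idx v u' k' → u = u' ∧ k = k') ∧
      (∀ v, (e v : ℕ) < n → ∀ u, H.Adj v u → ∀ j, (univ.filter fun k => idx v u k = j).card ≤ m) ∧
      ∀ u v, (e u : ℕ) < (e v : ℕ) → (e v : ℕ) < n → H.Adj u v → ∀ k k',
        idx u v k = idx u v k' → idx v u k = idx v u k' → k = k' := by
  classical
  induction n with
  | zero =>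
    exact ⟨fun _ _ _ => ⟨0, hm⟩, fun v hv => absurd hv (Nat.not_lt_zero _),
      fun v hv => absurd hv (Nat.not_lt_zero _), fun u v _ hv => absurd hv (Nat.not_lt_zero _)⟩
  | succ n ih =>
    obtain ⟨idx, i1, i2, i3⟩ := ih
    rcases Nat.lt_or_ge n (Fintype.card V) with hn | hn
    · obtain ⟨v, hv⟩ : ∃ v, (e v : ℕ) = n := ⟨e.symm ⟨n, hn⟩, by simp⟩
      have hdiv : ∀ k : Fin (m * m), (k : ℕ) / m < m := fun k => Nat.div_lt_of_lt_mul k.2
      obtain ⟨i, hi1, hi2⟩ := step kon H m N hm w h2 lab hlab1 hlab2 v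
        (fun u k => if (e u : ℕ) < n then idx u v k else ⟨(k : ℕ) / m, hdiv k⟩) (by
          intro u hu j
          by_cases hun : (e u : ℕ) < n
          · simp only [hun, if_true]
            exact i2 u hun v hu.symm j
          · simp only [hun, if_false]
            have h3 := div_fibre j
            refine le_trans (card_le_card ?_) h3
            intro k hk
            rw [mem_filter] at hk ⊢
            exact ⟨mem_univ _, by rw [← hk.2]⟩)
      have hne : ∀ u, (e u : ℕ) < n → u ≠ v := by
        rintro u hu rfl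
        omega
      have heq : ∀ u, (e u : ℕ) < n + 1 → (e u : ℕ) < n ∨ u = v := by
        intro u hu
        rcases Nat.lt_or_ge (e u : ℕ) n with h | h
        · exact Or.inl h
        · right
          apply e.injective
          apply Fin.ext
          omega
      refine ⟨fun u => if u = v then i else idx u, ?_, ?_, ?_⟩
      · intro u hu
        rcases heq u hu with h | h
        · simp only [hne u h, if_false]
          exact i1 u h
        · subst h
          simp only [if_true]
          intro u' u'' k k' a1 a2 a3 a4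
          exact hi1 u' u'' k k' a1 a2 a3 a4
      · intro u hu
        rcases heq u hu with h | h
        · simp only [hne u h, if_false]
          exact i2 u h
        · subst h
          simp only [if_true]
          intro u' hu' j
          have h3 : (univ.filter fun k => i u' k = j).card ≤ (univ : Finset (Fin m)).card := by
            refine card_le_card_of_injOn
              (fun k => if (e u' : ℕ) < n then idx u' u k else ⟨(k : ℕ) / m, hdiv k⟩)
              (fun _ _ => mem_univ _) ?_
            intro k hk k' hk' hkk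
            have a1 : i u' k = j := (mem_filter.1 hk).2
            have a2 : i u' k' = j := (mem_filter.1 hk').2
            exact hi2 u' k k' hu' hkk (a1.trans a2.symm)
          rwa [card_univ, Fintype.card_fin] at h3
      · intro u v' huv hv' hadj k k' a1 a2
        rcases heq v' hv' with h | h
        · have hu : (e u : ℕ) < n := by omega
          simp only [hne u hu, hne v' h, if_false] at a1 a2
          exact i3 u v' huv h hadj k k' a1 a2
        · subst h
          have hu : (e u : ℕ) < n := by omega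
          simp only [hne u hu, if_false, if_true] at a1 a2
          refine hi2 u k k' hadj.symm ?_ a2
          simp only [hu, if_true]
          exact a1
    · have hlt : ∀ v, (e v : ℕ) < n := fun v => lt_of_lt_of_le (e v).2 hn
      exact ⟨idx, fun v _ => i1 v (hlt v), fun v _ => i2 v (hlt v),
        fun u v huv _ => i3 u v huv (hlt v)⟩

/-- Splitting: an edge coloured amalgamation comes from a proper edge colouring of the blow-up. -/
theorem split_of_kon (kon : SKon) {V : Type} [Fintype V] [DecidableEq V] (H : SimpleGraph V)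
    (m N : ℕ)
    (w : ℕ → V → V → ℕ) (hs : ∀ l u v, w l u v = w l v u)
    (_h0 : ∀ l u v, ¬ H.Adj u v → w l u v = 0)
    (h1 : ∀ u v, H.Adj u v → ∑ l ∈ range N, w l u v = m * m)
    (h2 : ∀ l u, l < N → ∑ v, w l u v ≤ m) :
    ∃ g : V × Fin m → V × Fin m → ℕ,
      (∀ x y, H.Adj x.1 y.1 → g x y = g y x ∧ g x y < N ∧ 0 < w (g x y) x.1 y.1) ∧
      ∀ x y z, H.Adj x.1 y.1 → H.Adj x.1 z.1 → y ≠ z → g x y ≠ g x z := by
  classical
  rcases Nat.eq_zero_or_pos m with hm | hm
  · subst hm
    exact ⟨fun _ _ => 0, fun x => x.2.elim0, fun x => x.2.elim0⟩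
  · obtain ⟨lab, hlab0, hlab1, hlab2⟩ := labels_sym H m N w hs h1
    obtain ⟨e⟩ : Nonempty (V ≃ Fin (Fintype.card V)) := ⟨Fintype.equivFin V⟩
    obtain ⟨idx, i1, -, i3⟩ := recur kon H m N hm w h2 lab hlab1 hlab2 e (Fintype.card V)
    have hlt : ∀ v, (e v : ℕ) < Fintype.card V := fun v => (e v).2
    -- injectivity
    have hinj : ∀ u v, H.Adj u v → ∀ k k', idx u v k = idx u v k' → idx v u k = idx v u k' →
        k = k' := by
      intro u v huv k k' a1 a2
      rcases lt_trichotomy (e u : ℕ) (e v : ℕ) with h | h | h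
      · exact i3 u v h (hlt v) huv k k' a1 a2
      · exact absurd (e.injective (Fin.ext h)) huv.ne
      · exact i3 v u h (hlt u) huv.symm k k' a2 a1
    -- surjectivity
    have hsur : ∀ u v, H.Adj u v → ∀ i j, ∃ k, idx u v k = i ∧ idx v u k = j := by
      intro u v huv i j
      have hf : Function.Injective fun k => (idx u v k, idx v u k) := by
        intro k k' h
        rw [Prod.mk.injEq] at h
        exact hinj u v huv k k' h.1 h.2
      have hb : Function.Bijective fun k => (idx u v k, idx v u k) := by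
        rw [Fintype.bijective_iff_injective_and_card]
        exact ⟨hf, by simp⟩
      obtain ⟨k, hk⟩ := hb.2 (i, j)
      rw [Prod.mk.injEq] at hk
      exact ⟨k, hk⟩
    choose K hK1 hK2 using hsur
    have hsymm : ∀ u v (h : H.Adj u v) i j, K u v h i j = K v u h.symm j i := by
      intro u v h i j
      refine hinj u v h _ _ ?_ ?_
      · rw [hK1, hK2]
      · rw [hK2, hK1]
    refine ⟨fun x y => if h : H.Adj x.1 y.1 then lab x.1 y.1 (K x.1 y.1 h x.2 y.2) else 0, ?_, ?_⟩
    · intro x y h
      simp only [h, h.symm, dif_pos]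
      refine ⟨?_, hlab1 _ _ h _, ?_⟩
      · rw [hlab0 x.1 y.1, hsymm]
      · rw [← hlab2 x.1 y.1 h _ (hlab1 _ _ h _), card_pos]
        exact ⟨K x.1 y.1 h x.2 y.2, mem_filter.2 ⟨mem_univ _, rfl⟩⟩
    · intro x y z hy hz hyz hg
      simp only [hy, hz, dif_pos] at hg
      obtain ⟨a1, a2⟩ := i1 x.1 (hlt _) y.1 z.1 _ _ hy hz hg (by rw [hK1, hK1])
      apply hyz
      refine Prod.ext a1 ?_
      have b1 := hK2 x.1 y.1 hy x.2 y.2
      have b2 := hK2 x.1 z.1 hz x.2 z.2
      rw [← b1, ← b2, a2, a1]

/-- Splitting: an edge coloured amalgamation comes from a proper edge colouring of the blow-up. -/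
theorem split {V : Type} [Fintype V] [DecidableEq V] (H : SimpleGraph V) (m N : ℕ)
    (w : ℕ → V → V → ℕ) (hs : ∀ l u v, w l u v = w l v u)
    (h0 : ∀ l u v, ¬ H.Adj u v → w l u v = 0)
    (h1 : ∀ u v, H.Adj u v → ∑ l ∈ range N, w l u v = m * m)
    (h2 : ∀ l u, l < N → ∑ v, w l u v ≤ m) :
    ∃ g : V × Fin m → V × Fin m → ℕ,
      (∀ x y, H.Adj x.1 y.1 → g x y = g y x ∧ g x y < N ∧ 0 < w (g x y) x.1 y.1) ∧
      ∀ x y z, H.Adj x.1 y.1 → H.Adj x.1 z.1 → y ≠ z → g x y ≠ g x z :=
  split_of_kon (fun a b m ha hb => Pool.Agent.N645.TBKON.kon a b m ha hb) H m N w hs h0 h1 h2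

end Pool.Agent.N945.TBSPLIT
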