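import Pool.Agent.N661.QB.Stm
import Pool.Agent.N645.BHISOH

/-!
# QB/SH: translations, uniformly in the frame
-/

set_option autoImplicit false
open MeasureTheory Filter Topology Complex ProbabilityTheory
open scoped ContDiff

namespace Pool.Agent.N945.QB

open Pool.Agent.W745.RW (TF)
open Pool.Agent.N661.BH (mv)

noncomputable section

lemma mv_im (s : ℝ) (v z : ℂ) : (mv s v z).im = z.im * (1 + s * v.im) := by
  unfold mv
  simp
  ring

/-- `mv` as a linear map -/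
def L (s : ℝ) (v : ℂ) : ℂ →ₗ[ℝ] ℂ where
  toFun := mv s v
  map_add' x y := by
    unfold mv
    simp only [Complex.add_im]
    push_cast
    ring
  map_smul' c x := by
    unfold mv
    simp only [Complex.real_smul, Complex.mul_im, Complex.ofReal_re, Complex.ofReal_im,
      RingHom.id_apply]
    push_cast
    ring

lemma L_det (s : ℝ) (v : ℂ) : LinearMap.det (L s v) = 1 + s * v.im := by
  rw [← LinearMap.det_toMatrix Complex.basisOneI, Matrix.det_fin_two]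
  simp [LinearMap.toMatrix_apply, L, mv]

lemma mv_cont2 (s : ℝ) : Continuous fun q : ℂ × ℂ => mv s q.1 q.2 := by
  unfold mv
  fun_prop

lemma mv_cont (s : ℝ) (v : ℂ) : Continuous (mv s v) := by
  unfold mv
  fun_prop

lemma lmap {s : ℝ} {v : ℂ} (hd : 1 / 2 ≤ 1 + s * v.im) :
    Measure.map (mv s v) (volume : Measure ℂ) =
      ENNReal.ofReal ((1 + s * v.im)⁻¹) • (volume : Measure ℂ) := by
  have hdet : LinearMap.det (L s v) ≠ 0 := by
    rw [L_det]; linarith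
  have hm := Measure.map_linearMap_addHaar_eq_smul_addHaar (volume : Measure ℂ) hdet
  rw [L_det, abs_of_nonneg (inv_nonneg.2 (by linarith))] at hm
  exact hm

lemma lcov {s : ℝ} {v : ℂ} (hd : 1 / 2 ≤ 1 + s * v.im) {g : ℂ → ENNReal} (hg : Measurable g) :
    ∫⁻ z, g (mv s v z) ≤ 2 * ∫⁻ z, g z := by
  have h1 : ∫⁻ z, g (mv s v z) = ∫⁻ y, g y ∂(Measure.map (mv s v) volume) :=
    (lintegral_map hg (mv_cont s v).measurable).symm
  rw [h1, lmap hd, lintegral_smul_measure, smul_eq_mul]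
  refine mul_le_mul_left ?_ _
  have h2 : (2 : ENNReal) = ENNReal.ofReal 2 := by simp
  rw [h2]
  apply ENNReal.ofReal_le_ofReal
  rw [inv_le_comm₀ (by linarith) (by norm_num)]
  linarith

lemma icov {s : ℝ} {v : ℂ} (hd : 1 / 2 ≤ 1 + s * v.im) {g : ℂ → ℝ} (hg : Integrable g) :
    Integrable (fun z => g (mv s v z)) ∧ (1 + s * v.im) * ∫ z, g (mv s v z) = ∫ z, g z := by
  have hm := lmap hd
  have hmeas : Measurable (mv s v) := (mv_cont s v).measurable
  have hi : Integrable g (Measure.map (mv s v) volume) := by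
    rw [hm]; exact hg.smul_measure ENNReal.ofReal_ne_top
  refine ⟨(integrable_map_measure hi.1 hmeas.aemeasurable).1 hi, ?_⟩
  have h1 : ∫ z, g (mv s v z) = ∫ y, g y ∂(Measure.map (mv s v) volume) :=
    (integral_map hmeas.aemeasurable hi.1).symm
  have h2 : (1 + s * v.im) ≠ 0 := by linarith
  rw [h1, hm, integral_smul_measure, ENNReal.toReal_ofReal (inv_nonneg.2 (by linarith)),
    smul_eq_mul, mul_inv_cancel_left₀ h2]

lemma opn (l : ℂ →L[ℝ] ℝ) : ‖l‖ ≤ |l 1| + |l I| := by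
  refine l.opNorm_le_bound (by positivity) fun w => ?_
  have e : w = w.re • (1 : ℂ) + w.im • I := by
    rw [Complex.real_smul, Complex.real_smul, mul_one]
    exact (Complex.re_add_im w).symm
  have e2 : l w = w.re * l 1 + w.im * l I := by
    conv_lhs => rw [e]
    rw [map_add, map_smul, map_smul, smul_eq_mul, smul_eq_mul]
  rw [e2, Real.norm_eq_abs]
  have h1 := Complex.abs_re_le_norm w
  have h2 := Complex.abs_im_le_norm w
  calc |w.re * l 1 + w.im * l I| ≤ |w.re * l 1| + |w.im * l I| := abs_add_le _ _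
    _ = |w.re| * |l 1| + |w.im| * |l I| := by rw [abs_mul, abs_mul]
    _ ≤ ‖w‖ * |l 1| + ‖w‖ * |l I| := by gcongr
    _ = _ := by ring

/-- the basic estimate -/
lemma seg {B S K' : Set ℂ} (hB : IsOpen B) (hK : IsCompact K') (hKB : K' ⊆ B) {φ : ℂ → ℝ}
    (hS : ∀ z, z ∉ S → φ z = 0) {M R : ℝ} (hM : ∀ z, |φ z| ≤ M) (hR : ∀ z ∈ S, |z.im| ≤ R)
    {u : ℂ → ℝ} (hu : ContDiffOn ℝ ∞ u B) {h : ℝ} (hh : 0 < h) {v0 v1 : ℂ}
    (hm : ∀ s ∈ Set.Icc (0 : ℝ) 1, ∀ z ∈ S, mv h (v0 + (s : ℂ) * (v1 - v0)) z ∈ K')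
    (hd : ∀ s ∈ Set.Icc (0 : ℝ) 1, 1 / 2 ≤ 1 + h * (v0 + (s : ℂ) * (v1 - v0)).im) :
    ∫⁻ z, ‖φ z * (u (mv h v1 z) - u (mv h v0 z))‖ₑ ≤
      ENNReal.ofReal (M * (R * ‖v1 - v0‖)) *
        (2 * ∫⁻ z in K', ENNReal.ofReal (h * ‖fderiv ℝ u z‖)) := by
  classical
  set Dn : ℂ → ENNReal := K'.indicator fun z => ENNReal.ofReal (h * ‖fderiv ℝ u z‖) with hDn
  have hDm : Measurable Dn := by
    refine Measurable.indicator ?_ hK.measurableSet
    exact ((measurable_const.mul (measurable_fderiv ℝ u).norm)).ennreal_ofReal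
  set Ts : ℂ → ℝ → ℂ := fun z s => mv h (v0 + (s : ℂ) * (v1 - v0)) z with hTs
  have hTc : Continuous fun p : ℂ × ℝ => Ts p.1 p.2 := by
    have : Continuous fun p : ℂ × ℝ => ((v0 + (p.2 : ℂ) * (v1 - v0), p.1) : ℂ × ℂ) := by fun_prop
    exact (mv_cont2 h).comp this
  have hpt : ∀ z, ‖φ z * (u (mv h v1 z) - u (mv h v0 z))‖ₑ ≤
      ENNReal.ofReal (M * (R * ‖v1 - v0‖)) * ∫⁻ s in Set.Ioc (0 : ℝ) 1, Dn (Ts z s) := by
    intro z
    by_cases hz : z ∈ S
    swap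
    · rw [hS z hz, zero_mul, enorm_zero]
      exact bot_le
    have hM0 : 0 ≤ M := (abs_nonneg _).trans (hM z)
    have hder : ∀ s ∈ Set.uIcc (0 : ℝ) 1, HasDerivAt (fun s : ℝ => u (Ts z s))
        (fderiv ℝ u (Ts z s) (((h * z.im : ℝ) : ℂ) * (v1 - v0))) s := by
      intro s hs
      rw [Set.uIcc_of_le zero_le_one] at hs
      have h1 := hKB (hm s hs z hz)
      have h2 : HasFDerivAt u (fderiv ℝ u (Ts z s)) (Ts z s) :=
        ((hu.contDiffAt (hB.mem_nhds h1)).differentiableAt (by simp)).hasFDerivAt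
      have h3 : HasDerivAt (fun s : ℝ => Ts z s) (((h * z.im : ℝ) : ℂ) * (v1 - v0)) s := by
        have e1 : HasDerivAt (fun s : ℝ => v0 + (s : ℂ) * (v1 - v0)) (v1 - v0) s := by
          have := ((Complex.ofRealCLM.hasDerivAt (x := s)).mul_const (v1 - v0)).const_add v0
          simpa using this
        exact (e1.const_mul (((h * z.im : ℝ) : ℂ))).const_add z
      exact h2.comp_hasDerivAt s h3
    have hcs : Continuous fun s : ℝ => Ts z s :=
      hTc.comp (Continuous.prodMk continuous_const continuous_id)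
    have hci : ContinuousOn (fun s : ℝ => fderiv ℝ u (Ts z s) (((h * z.im : ℝ) : ℂ) * (v1 - v0)))
        (Set.uIcc (0 : ℝ) 1) := by
      have cfd : ContinuousOn (fun z => fderiv ℝ u z) B :=
        hu.continuousOn_fderiv_of_isOpen hB (by simp)
      refine ContinuousOn.clm_apply (cfd.comp hcs.continuousOn fun s hs => ?_) continuousOn_const
      rw [Set.uIcc_of_le zero_le_one] at hs
      exact hKB (hm s hs z hz)
    have hftc := intervalIntegral.integral_eq_sub_of_hasDerivAt hder hci.intervalIntegrable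
    have e1 : Ts z 1 = mv h v1 z := by
      rw [hTs]; simp
    have e0 : Ts z 0 = mv h v0 z := by
      rw [hTs]; simp
    rw [e1, e0] at hftc
    rw [← hftc, enorm_mul, intervalIntegral.integral_of_le zero_le_one]
    have h5 : ‖φ z‖ₑ ≤ ENNReal.ofReal M := by
      rw [Real.enorm_eq_ofReal_abs]
      exact ENNReal.ofReal_le_ofReal (hM z)
    have h6 : ‖∫ s in Set.Ioc (0 : ℝ) 1, fderiv ℝ u (Ts z s) (((h * z.im : ℝ) : ℂ) * (v1 - v0))‖ₑ ≤
        ENNReal.ofReal (R * ‖v1 - v0‖) * ∫⁻ s in Set.Ioc (0 : ℝ) 1, Dn (Ts z s) := by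
      refine (enorm_integral_le_lintegral_enorm _).trans ?_
      have hDms : Measurable fun s => Dn (Ts z s) := hDm.comp hcs.measurable
      rw [← lintegral_const_mul _ hDms]
      refine setLIntegral_mono' measurableSet_Ioc fun s hs => ?_
      have hs' : s ∈ Set.Icc (0 : ℝ) 1 := Set.Ioc_subset_Icc_self hs
      have h7 := hm s hs' z hz
      rw [hDn, Set.indicator_of_mem h7, ← ENNReal.ofReal_mul (by
        have := (abs_nonneg _).trans (hR z hz)
        positivity), Real.enorm_eq_ofReal_abs]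
      apply ENNReal.ofReal_le_ofReal
      have h8 := (fderiv ℝ u (Ts z s)).le_opNorm (((h * z.im : ℝ) : ℂ) * (v1 - v0))
      rw [Real.norm_eq_abs, norm_mul, Complex.norm_real, Real.norm_eq_abs, abs_mul,
        abs_of_pos hh] at h8
      refine h8.trans ?_
      have h9 := hR z hz
      calc ‖fderiv ℝ u (Ts z s)‖ * (h * |z.im| * ‖v1 - v0‖) ≤
            ‖fderiv ℝ u (Ts z s)‖ * (h * R * ‖v1 - v0‖) := by gcongr
        _ = _ := by ring
    calc ‖φ z‖ₑ * _ ≤ ENNReal.ofReal M * (ENNReal.ofReal (R * ‖v1 - v0‖) *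
          ∫⁻ s in Set.Ioc (0 : ℝ) 1, Dn (Ts z s)) := mul_le_mul' h5 h6
      _ = _ := by rw [← mul_assoc, ← ENNReal.ofReal_mul hM0]
  have hm2 : Measurable (Function.uncurry fun z s => Dn (Ts z s)) := hDm.comp hTc.measurable
  calc ∫⁻ z, ‖φ z * (u (mv h v1 z) - u (mv h v0 z))‖ₑ
      ≤ ∫⁻ z, ENNReal.ofReal (M * (R * ‖v1 - v0‖)) *
          ∫⁻ s in Set.Ioc (0 : ℝ) 1, Dn (Ts z s) := lintegral_mono hpt
    _ = ENNReal.ofReal (M * (R * ‖v1 - v0‖)) *
          ∫⁻ z, ∫⁻ s in Set.Ioc (0 : ℝ) 1, Dn (Ts z s) := by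
        rw [lintegral_const_mul]
        exact hm2.lintegral_prod_right'
    _ = ENNReal.ofReal (M * (R * ‖v1 - v0‖)) *
          ∫⁻ s in Set.Ioc (0 : ℝ) 1, ∫⁻ z, Dn (Ts z s) := by
        rw [lintegral_lintegral_swap hm2.aemeasurable]
    _ ≤ ENNReal.ofReal (M * (R * ‖v1 - v0‖)) *
          ∫⁻ s in Set.Ioc (0 : ℝ) 1, 2 * ∫⁻ z, Dn z := by
        refine mul_le_mul' le_rfl ?_
        refine setLIntegral_mono' measurableSet_Ioc fun s hs => ?_
        exact lcov (hd s (Set.Ioc_subset_Icc_self hs)) hDm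
    _ = ENNReal.ofReal (M * (R * ‖v1 - v0‖)) *
        (2 * ∫⁻ z in K', ENNReal.ofReal (h * ‖fderiv ℝ u z‖)) := by
        rw [setLIntegral_const, Real.volume_Ioc, sub_zero, ENNReal.ofReal_one, mul_one, hDn,
          lintegral_indicator hK.measurableSet]

/-- comparison of the test functions -/
lemma tst {φ : ℂ → ℝ} (h1 : ContDiff ℝ ∞ φ) (h2 : HasCompactSupport φ) :
    ∃ (K : Set ℂ) (A : ℝ), IsCompact K ∧ 0 ≤ A ∧ ∀ (h : ℝ) (b : ℂ), 0 < h → h * ‖b‖ ≤ 1 / 2 →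
      ∀ z, |φ z - (1 + h * b.im) * φ (mv h b z)| ≤ K.indicator (fun _ => A * (h * ‖b‖)) z := by
  obtain ⟨Lp, hL⟩ := h1.lipschitzWith_of_hasCompactSupport h2 (by simp)
  obtain ⟨M, hM⟩ := h2.exists_bound_of_continuous h1.continuous
  obtain ⟨R0, hR0⟩ := h2.isBounded.exists_norm_le
  set R : ℝ := |R0| with hR
  have hRb : ∀ z, φ z ≠ 0 → ‖z‖ ≤ R := fun z hz =>
    (hR0 z (subset_tsupport _ hz)).trans (le_abs_self _)
  have hRn : 0 ≤ R := abs_nonneg _
  have hM0 : 0 ≤ M := (norm_nonneg _).trans (hM 0)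
  refine ⟨Metric.closedBall 0 (2 * R), Lp * (2 * R) + M, isCompact_closedBall _ _,
    by positivity, fun h b hh hb z => ?_⟩
  have hbi : |h * b.im| ≤ h * ‖b‖ := by
    rw [abs_mul, abs_of_pos hh]
    exact mul_le_mul_of_nonneg_left (Complex.abs_im_le_norm b) hh.le
  have hbi2 := neg_abs_le (h * b.im)
  have hbn : 0 ≤ h * ‖b‖ := by positivity
  have hmn : ‖mv h b z - z‖ = h * |z.im| * ‖b‖ := by
    unfold mv
    rw [add_sub_cancel_left, norm_mul, Complex.norm_real, Real.norm_eq_abs, abs_mul,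
      abs_of_pos hh]
  by_cases hz : z ∈ Metric.closedBall (0 : ℂ) (2 * R)
  · rw [Set.indicator_of_mem hz]
    have hzn : ‖z‖ ≤ 2 * R := by simpa using hz
    have hzi : |z.im| ≤ 2 * R := (Complex.abs_im_le_norm z).trans hzn
    have e1 : |φ z - φ (mv h b z)| ≤ Lp * (h * (2 * R) * ‖b‖) := by
      have := hL.dist_le_mul z (mv h b z)
      rw [Real.dist_eq, dist_comm, dist_eq_norm, hmn] at this
      refine this.trans ?_
      gcongr
    have e2 : |h * b.im * φ (mv h b z)| ≤ h * ‖b‖ * M := by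
      rw [abs_mul]
      exact mul_le_mul hbi (hM _) (abs_nonneg _) hbn
    calc |φ z - (1 + h * b.im) * φ (mv h b z)|
        = |(φ z - φ (mv h b z)) - h * b.im * φ (mv h b z)| := by congr 1; ring
      _ ≤ |φ z - φ (mv h b z)| + |h * b.im * φ (mv h b z)| := abs_sub _ _
      _ ≤ Lp * (h * (2 * R) * ‖b‖) + h * ‖b‖ * M := add_le_add e1 e2
      _ = (Lp * (2 * R) + M) * (h * ‖b‖) := by ring
  · rw [Set.indicator_of_notMem hz]
    have hzn : 2 * R < ‖z‖ := by simpa using hz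
    have hz1 : φ z = 0 := by
      by_contra hc
      have := hRb z hc
      linarith
    have hz2 : φ (mv h b z) = 0 := by
      by_contra hc
      have k1 := hRb _ hc
      have k2 : |(mv h b z).im| ≤ R := (Complex.abs_im_le_norm _).trans k1
      rw [mv_im, abs_mul] at k2
      have k3 : (1 / 2 : ℝ) ≤ |1 + h * b.im| := by
        have := le_abs_self (1 + h * b.im)
        linarith
      have k4 : |z.im| ≤ 2 * R := by
        have := abs_nonneg z.im
        nlinarith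
      have k5 : ‖z‖ ≤ ‖mv h b z‖ + ‖mv h b z - z‖ := by
        have := norm_sub_norm_le z (mv h b z)
        rw [norm_sub_rev] at this
        linarith
      rw [hmn] at k5
      have k6 : h * |z.im| * ‖b‖ ≤ R := by
        calc h * |z.im| * ‖b‖ = |z.im| * (h * ‖b‖) := by ring
          _ ≤ (2 * R) * (1 / 2) := mul_le_mul k4 hb hbn (by positivity)
          _ = R := by ring
      linarith
    rw [hz1, hz2]
    simp

/-- continuity of Lipschitz functions of two variables -/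
lemma contG {G : ℝ → ℝ → ℝ} {C : ℝ}
    (hG : ∀ s t s' t', |G s t - G s' t'| ≤ C * (|s - s'| + |t - t'|)) :
    Continuous fun p : ℝ × ℝ => G p.1 p.2 := by
  have h1 : LipschitzWith (Real.toNNReal (2 * |C|)) fun p : ℝ × ℝ => G p.1 p.2 := by
    refine LipschitzWith.of_dist_le_mul fun p q => ?_
    rw [Real.dist_eq, Real.coe_toNNReal _ (by positivity)]
    have h2 : |p.1 - q.1| ≤ dist p q := by
      rw [← Real.dist_eq, Prod.dist_eq]; exact le_max_left _ _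
    have h3 : |p.2 - q.2| ≤ dist p q := by
      rw [← Real.dist_eq, Prod.dist_eq]; exact le_max_right _ _
    calc |G p.1 p.2 - G q.1 q.2| ≤ C * (|p.1 - q.1| + |p.2 - q.2|) := hG _ _ _ _
      _ ≤ |C| * (|p.1 - q.1| + |p.2 - q.2|) :=
          mul_le_mul_of_nonneg_right (le_abs_self C) (by positivity)
      _ ≤ |C| * (dist p q + dist p q) := by gcongr
      _ = _ := by ring
  exact h1.continuous

lemma intm {U : Set ℂ} (hU : IsOpen U) {φ : ℂ → ℝ} (hφ : Continuous φ) (hc : HasCompactSupport φ)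
    (hs : tsupport φ ⊆ U) {F : ℂ → ℝ} (hF : ContinuousOn F U) :
    Integrable (fun z => φ z * F z) := by
  have h1 : ContinuousOn (fun z => φ z * F z) U := hφ.continuousOn.mul hF
  have h2 : tsupport (fun z => φ z * F z) ⊆ U := (tsupport_mul_subset_left).trans hs
  exact (h1.continuous_of_tsupport_subset hU h2).integrable_of_hasCompactSupport hc.mul_right

lemma mv_mv (h : ℝ) (a b z : ℂ) :
    mv h a (mv h b z) = mv h (b + ((1 + h * b.im : ℝ) : ℂ) * a) z := by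
  have h1 := mv_im h b z
  unfold mv at h1 ⊢
  rw [h1]
  push_cast
  ring

/-- the geometry -/
structure Geo (B U K' : Set ℂ) (φ : ℂ → ℝ) (δ M R : ℝ) : Prop where
  hB : IsOpen B
  sm : ContDiff ℝ ∞ φ
  cs : HasCompactSupport φ
  hU : IsOpen U
  sU : tsupport φ ⊆ U
  hK : IsCompact K'
  KB : K' ⊆ B
  UK : U ⊆ K'
  dp : 0 < δ
  d2 : δ ≤ 1 / 2
  mem : ∀ z ∈ U, ∀ (s : ℝ) (v : ℂ), |s| * ‖v‖ ≤ δ → mv s v z ∈ K'
  hM : ∀ z, |φ z| ≤ M
  hR : ∀ z ∈ K', |z.im| ≤ R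

variable {B U K' : Set ℂ} {φ : ℂ → ℝ} {δ M R : ℝ}

lemma Geo.det (g : Geo B U K' φ δ M R) {h : ℝ} (hh : 0 < h) {v : ℂ} (hv : h * ‖v‖ ≤ δ) :
    1 / 2 ≤ 1 + h * v.im := by
  have h1 : |h * v.im| ≤ δ := by
    rw [abs_mul, abs_of_pos hh]
    exact (mul_le_mul_of_nonneg_left (Complex.abs_im_le_norm v) hh.le).trans hv
  have := neg_abs_le (h * v.im)
  have := g.d2
  linarith

lemma Geo.co (g : Geo B U K' φ δ M R) {u : ℂ → ℝ} (hu : ContDiffOn ℝ ∞ u B) {h : ℝ} (hh : 0 < h)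
    {v : ℂ} (hv : h * ‖v‖ ≤ δ) : ContinuousOn (fun z => u (mv h v z)) U :=
  hu.continuousOn.comp (mv_cont h v).continuousOn fun z hz =>
    g.KB (g.mem z hz h v (by rwa [abs_of_pos hh]))

lemma Geo.int1 (g : Geo B U K' φ δ M R) {u : ℂ → ℝ} (hu : ContDiffOn ℝ ∞ u B) {h : ℝ}
    (hh : 0 < h) {G : ℝ → ℝ → ℝ} (hG : Continuous fun p : ℝ × ℝ => G p.1 p.2) {v w : ℂ}
    (hv : h * ‖v‖ ≤ δ) (hw : h * ‖w‖ ≤ δ) :
    Integrable fun z => φ z * G (u (mv h v z)) (u (mv h w z)) :=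
  intm g.hU g.sm.continuous g.cs g.sU
    (hG.comp_continuousOn ((g.co hu hh hv).prodMk (g.co hu hh hw)))

lemma Geo.E (g : Geo B U K' φ δ M R) {u : ℂ → ℝ} (hu : ContDiffOn ℝ ∞ u B) {h : ℝ} (hh : 0 < h) :
    ∫⁻ z in K', ENNReal.ofReal (h * ‖fderiv ℝ u z‖) =
      ENNReal.ofReal (∫ z in K', h * ‖fderiv ℝ u z‖) := by
  rw [ofReal_integral_eq_lintegral_ofReal]
  · have cfd : ContinuousOn (fun z => fderiv ℝ u z) B :=
      hu.continuousOn_fderiv_of_isOpen g.hB (by simp)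
    exact (continuousOn_const.mul (cfd.mono g.KB).norm).integrableOn_compact g.hK
  · exact Eventually.of_forall fun z => by positivity

/-- one pair of points -/
lemma Geo.sg (g : Geo B U K' φ δ M R) {u : ℂ → ℝ} (hu : ContDiffOn ℝ ∞ u B) {h : ℝ} (hh : 0 < h)
    {v0 v1 : ℂ} (h0 : h * ‖v0‖ ≤ δ) (h1 : h * ‖v1‖ ≤ δ) :
    ∫⁻ z, ‖φ z * (u (mv h v1 z) - u (mv h v0 z))‖ₑ ≤
      ENNReal.ofReal (M * (R * ‖v1 - v0‖) * (2 * ∫ z in K', h * ‖fderiv ℝ u z‖)) := by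
  have hM0 : 0 ≤ M := (abs_nonneg _).trans (g.hM 0)
  have hns : ∀ s ∈ Set.Icc (0 : ℝ) 1, h * ‖v0 + (s : ℂ) * (v1 - v0)‖ ≤ δ := by
    intro s hs
    have e1 : v0 + (s : ℂ) * (v1 - v0) = ((1 - s : ℝ) : ℂ) * v0 + ((s : ℝ) : ℂ) * v1 := by
      push_cast; ring
    have e2 : ‖v0 + (s : ℂ) * (v1 - v0)‖ ≤ (1 - s) * ‖v0‖ + s * ‖v1‖ := by
      rw [e1]
      refine (norm_add_le _ _).trans (le_of_eq ?_)
      rw [norm_mul, norm_mul, Complex.norm_real, Complex.norm_real, Real.norm_eq_abs,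
        Real.norm_eq_abs, abs_of_nonneg hs.1, abs_of_nonneg (sub_nonneg.2 hs.2)]
    calc h * ‖v0 + (s : ℂ) * (v1 - v0)‖ ≤ h * ((1 - s) * ‖v0‖ + s * ‖v1‖) := by gcongr
      _ = (1 - s) * (h * ‖v0‖) + s * (h * ‖v1‖) := by ring
      _ ≤ (1 - s) * δ + s * δ := add_le_add
          (mul_le_mul_of_nonneg_left h0 (sub_nonneg.2 hs.2)) (mul_le_mul_of_nonneg_left h1 hs.1)
      _ = δ := by ring
  by_cases hne : (tsupport φ).Nonempty
  · obtain ⟨z0, hz0⟩ := hne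
    have hR0 : 0 ≤ R := (abs_nonneg _).trans (g.hR z0 (g.UK (g.sU hz0)))
    have key := seg (S := tsupport φ) g.hB g.hK g.KB (φ := φ)
      (fun z hz => image_eq_zero_of_notMem_tsupport hz) (M := M) (R := R) g.hM
      (fun z hz => g.hR z (g.UK (g.sU hz))) hu hh (v0 := v0) (v1 := v1)
      (fun s hs z hz => g.mem z (g.sU hz) h _ (by rw [abs_of_pos hh]; exact hns s hs))
      (fun s hs => g.det hh (hns s hs))
    refine key.trans (le_of_eq ?_)
    rw [g.E hu hh]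
    have e2 : (2 : ENNReal) = ENNReal.ofReal 2 := by simp
    rw [e2, ← ENNReal.ofReal_mul (by norm_num), ← ENNReal.ofReal_mul (by positivity)]
  · have h0 : ∀ z, φ z = 0 := fun z => by
      by_contra hc
      exact hne ⟨z, subset_tsupport _ hc⟩
    simp [h0]

/-- the main estimate -/
theorem Geo.one (g : Geo B U K' φ δ M R) {K : Set ℂ} {A : ℝ} (hK : IsCompact K)
    (ht : ∀ (h : ℝ) (b : ℂ), 0 < h → h * ‖b‖ ≤ 1 / 2 →
      ∀ z, |φ z - (1 + h * b.im) * φ (mv h b z)| ≤ K.indicator (fun _ => A * (h * ‖b‖)) z)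
    {u : ℂ → ℝ} (hu : ContDiffOn ℝ ∞ u B) {h : ℝ} (hh : 0 < h) {G : ℝ → ℝ → ℝ} {C : ℝ}
    (hG0 : ∀ s t, |G s t| ≤ C)
    (hG : ∀ s t s' t', |G s t - G s' t'| ≤ C * (|s - s'| + |t - t'|)) {a1 a2 b : ℂ}
    (hs : h * (‖b‖ + 2 * ‖a1‖ + 2 * ‖a2‖) ≤ δ) (hR0 : 0 ≤ R) :
    |(∫ z, φ z * G (u (mv h (a1 + b) z)) (u (mv h (a2 + b) z))) -
      ∫ z, φ z * G (u (mv h a1 z)) (u (mv h a2 z))| ≤
    C * (M * (R * (h * ‖b‖ * ‖a1‖)) * (2 * ∫ z in K', h * ‖fderiv ℝ u z‖) +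
      M * (R * (h * ‖b‖ * ‖a2‖)) * (2 * ∫ z in K', h * ‖fderiv ℝ u z‖)) +
      C * (A * (h * ‖b‖)) * volume.real K := by
  have hM0 : 0 ≤ M := (abs_nonneg _).trans (g.hM 0)
  have hC0 : 0 ≤ C := (abs_nonneg _).trans (hG0 0 0)
  have hGc := contG hG
  have hd2 := g.d2
  have hb : h * ‖b‖ ≤ 1 / 2 := by
    have h1 := norm_nonneg a1
    have h2 := norm_nonneg a2
    nlinarith
  set κ : ℝ := 1 + h * b.im with hκ
  have hbi : |h * b.im| ≤ h * ‖b‖ := by
    rw [abs_mul, abs_of_pos hh]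
    exact mul_le_mul_of_nonneg_left (Complex.abs_im_le_norm b) hh.le
  have hκ1 : 1 / 2 ≤ κ := by
    have := neg_abs_le (h * b.im)
    linarith
  have hκ2 : |κ| ≤ 2 := by
    rw [abs_of_nonneg (by linarith)]
    have := le_abs_self (h * b.im)
    linarith
  have hab : ∀ a : ℂ, ‖a + b‖ ≤ ‖b‖ + 2 * ‖a‖ := fun a => by
    have := norm_add_le a b
    have := norm_nonneg a
    linarith
  have hab' : ∀ a : ℂ, ‖b + (κ : ℂ) * a‖ ≤ ‖b‖ + 2 * ‖a‖ := fun a => by
    refine (norm_add_le _ _).trans ?_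
    rw [norm_mul, Complex.norm_real, Real.norm_eq_abs]
    have := mul_le_mul_of_nonneg_right hκ2 (norm_nonneg a)
    linarith
  have s1 : ∀ v : ℂ, ‖v‖ ≤ ‖b‖ + 2 * ‖a1‖ → h * ‖v‖ ≤ δ := fun v hv => by
    refine le_trans (mul_le_mul_of_nonneg_left (hv.trans ?_) hh.le) hs
    have := norm_nonneg a2
    linarith
  have s2 : ∀ v : ℂ, ‖v‖ ≤ ‖b‖ + 2 * ‖a2‖ → h * ‖v‖ ≤ δ := fun v hv => by
    refine le_trans (mul_le_mul_of_nonneg_left (hv.trans ?_) hh.le) hs
    have := norm_nonneg a1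
    linarith
  have t1 : h * ‖a1‖ ≤ δ := s1 _ (by linarith [norm_nonneg a1, norm_nonneg b])
  have t2 : h * ‖a2‖ ≤ δ := s2 _ (by linarith [norm_nonneg a2, norm_nonneg b])
  have i1 := g.int1 hu hh hGc (s1 _ (hab a1)) (s2 _ (hab a2))
  have i2 := g.int1 hu hh hGc (s1 _ (hab' a1)) (s2 _ (hab' a2))
  have i3 := g.int1 hu hh hGc t1 t2
  obtain ⟨i4, e3⟩ := icov (s := h) (v := b) hκ1 i3
  -- first difference
  have d1 : |(∫ z, φ z * G (u (mv h (a1 + b) z)) (u (mv h (a2 + b) z))) -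
      ∫ z, φ z * G (u (mv h (b + (κ : ℂ) * a1) z)) (u (mv h (b + (κ : ℂ) * a2) z))| ≤
      C * (M * (R * (h * ‖b‖ * ‖a1‖)) * (2 * ∫ z in K', h * ‖fderiv ℝ u z‖) +
      M * (R * (h * ‖b‖ * ‖a2‖)) * (2 * ∫ z in K', h * ‖fderiv ℝ u z‖)) := by
    have hE0 : 0 ≤ ∫ z in K', h * ‖fderiv ℝ u z‖ := integral_nonneg fun z => by positivity
    rw [← integral_sub i1 i2, ← ENNReal.ofReal_le_ofReal_iff (by positivity),
      ← Real.enorm_eq_ofReal_abs]
    refine (enorm_integral_le_lintegral_enorm _).trans ?_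
    have hdv : ∀ a : ℂ, ‖(a + b) - (b + (κ : ℂ) * a)‖ ≤ h * ‖b‖ * ‖a‖ := by
      intro a
      have : (a + b) - (b + (κ : ℂ) * a) = ((-(h * b.im) : ℝ) : ℂ) * a := by
        rw [hκ]; push_cast; ring
      rw [this, norm_mul, Complex.norm_real, Real.norm_eq_abs, abs_neg]
      exact mul_le_mul_of_nonneg_right hbi (norm_nonneg _)
    have w1 : ∫⁻ z, ‖φ z * (u (mv h (a1 + b) z) - u (mv h (b + (κ : ℂ) * a1) z))‖ₑ ≤
        ENNReal.ofReal (M * (R * (h * ‖b‖ * ‖a1‖)) * (2 * ∫ z in K', h * ‖fderiv ℝ u z‖)) := by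
      refine (g.sg hu hh (s1 _ (hab' a1)) (s1 _ (hab a1))).trans (ENNReal.ofReal_le_ofReal ?_)
      have := hdv a1
      gcongr
    have w2 : ∫⁻ z, ‖φ z * (u (mv h (a2 + b) z) - u (mv h (b + (κ : ℂ) * a2) z))‖ₑ ≤
        ENNReal.ofReal (M * (R * (h * ‖b‖ * ‖a2‖)) * (2 * ∫ z in K', h * ‖fderiv ℝ u z‖)) := by
      refine (g.sg hu hh (s2 _ (hab' a2)) (s2 _ (hab a2))).trans (ENNReal.ofReal_le_ofReal ?_)
      have := hdv a2
      gcongr
    have m1 : AEMeasurable fun z =>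
        ‖φ z * (u (mv h (a1 + b) z) - u (mv h (b + (κ : ℂ) * a1) z))‖ₑ :=
      (intm g.hU g.sm.continuous g.cs g.sU ((g.co hu hh (s1 _ (hab a1))).sub
        (g.co hu hh (s1 _ (hab' a1))))).1.enorm
    calc ∫⁻ z, ‖φ z * G (u (mv h (a1 + b) z)) (u (mv h (a2 + b) z)) -
          φ z * G (u (mv h (b + (κ : ℂ) * a1) z)) (u (mv h (b + (κ : ℂ) * a2) z))‖ₑ
        ≤ ∫⁻ z, ENNReal.ofReal C *
            (‖φ z * (u (mv h (a1 + b) z) - u (mv h (b + (κ : ℂ) * a1) z))‖ₑ +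
            ‖φ z * (u (mv h (a2 + b) z) - u (mv h (b + (κ : ℂ) * a2) z))‖ₑ) := by
          refine lintegral_mono fun z => ?_
          rw [Real.enorm_eq_ofReal_abs, Real.enorm_eq_ofReal_abs, Real.enorm_eq_ofReal_abs,
            ← ENNReal.ofReal_add (abs_nonneg _) (abs_nonneg _), ← ENNReal.ofReal_mul hC0]
          apply ENNReal.ofReal_le_ofReal
          rw [← mul_sub, abs_mul, abs_mul, abs_mul, ← mul_add]
          have := mul_le_mul_of_nonneg_left (hG (u (mv h (a1 + b) z)) (u (mv h (a2 + b) z))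
            (u (mv h (b + (κ : ℂ) * a1) z)) (u (mv h (b + (κ : ℂ) * a2) z))) (abs_nonneg (φ z))
          linarith
      _ = ENNReal.ofReal C *
          ((∫⁻ z, ‖φ z * (u (mv h (a1 + b) z) - u (mv h (b + (κ : ℂ) * a1) z))‖ₑ) +
          ∫⁻ z, ‖φ z * (u (mv h (a2 + b) z) - u (mv h (b + (κ : ℂ) * a2) z))‖ₑ) := by
          rw [lintegral_const_mul' _ _ ENNReal.ofReal_ne_top, lintegral_add_left' m1]
      _ ≤ ENNReal.ofReal C *
          (ENNReal.ofReal (M * (R * (h * ‖b‖ * ‖a1‖)) * (2 * ∫ z in K', h * ‖fderiv ℝ u z‖)) +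
          ENNReal.ofReal (M * (R * (h * ‖b‖ * ‖a2‖)) *
            (2 * ∫ z in K', h * ‖fderiv ℝ u z‖))) := by
          gcongr
      _ = _ := by
          rw [← ENNReal.ofReal_add (by positivity) (by positivity), ← ENNReal.ofReal_mul hC0]
  -- second difference
  have d2 : |(∫ z, φ z * G (u (mv h (b + (κ : ℂ) * a1) z)) (u (mv h (b + (κ : ℂ) * a2) z))) -
      ∫ z, φ z * G (u (mv h a1 z)) (u (mv h a2 z))| ≤
      C * (A * (h * ‖b‖)) * volume.real K := by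
    have e4 : ∀ z, φ (mv h b z) * G (u (mv h a1 (mv h b z))) (u (mv h a2 (mv h b z))) =
        φ (mv h b z) *
          G (u (mv h (b + (κ : ℂ) * a1) z)) (u (mv h (b + (κ : ℂ) * a2) z)) := by
      intro z
      rw [mv_mv, mv_mv]
    rw [← e3, ← integral_const_mul, ← integral_sub i2 (i4.const_mul _), ← Real.norm_eq_abs]
    have hind : Integrable (K.indicator fun _ : ℂ => C * (A * (h * ‖b‖))) :=
      (integrableOn_const hK.measure_lt_top.ne).integrable_indicator hK.measurableSet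
    refine (norm_integral_le_of_norm_le hind (Eventually.of_forall fun z => ?_)).trans
      (le_of_eq ?_)
    · show ‖φ z * G (u (mv h (b + (κ : ℂ) * a1) z)) (u (mv h (b + (κ : ℂ) * a2) z)) -
        κ * (φ (mv h b z) * G (u (mv h a1 (mv h b z))) (u (mv h a2 (mv h b z))))‖ ≤ _
      rw [e4]
      have e5 : φ z * G (u (mv h (b + (κ : ℂ) * a1) z)) (u (mv h (b + (κ : ℂ) * a2) z)) -
        κ * (φ (mv h b z) * G (u (mv h (b + (κ : ℂ) * a1) z))
          (u (mv h (b + (κ : ℂ) * a2) z))) = (φ z - κ * φ (mv h b z)) *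
            G (u (mv h (b + (κ : ℂ) * a1) z)) (u (mv h (b + (κ : ℂ) * a2) z)) := by ring
      rw [e5, Real.norm_eq_abs, abs_mul]
      have e6 := ht h b hh hb z
      by_cases hz : z ∈ K
      · rw [Set.indicator_of_mem hz] at e6 ⊢
        calc _ ≤ (A * (h * ‖b‖)) * C :=
              mul_le_mul e6 (hG0 _ _) (abs_nonneg _) ((abs_nonneg _).trans e6)
          _ = _ := by ring
      · rw [Set.indicator_of_notMem hz] at e6 ⊢
        have e7 : |φ z - κ * φ (mv h b z)| = 0 := le_antisymm e6 (abs_nonneg _)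
        rw [e7, zero_mul]
    · rw [integral_indicator hK.measurableSet, setIntegral_const, smul_eq_mul, mul_comm]
  calc _ ≤ _ := abs_sub_le _ (∫ z, φ z * G (u (mv h (b + (κ : ℂ) * a1) z))
        (u (mv h (b + (κ : ℂ) * a2) z))) _
    _ ≤ _ := add_le_add d1 d2

/-! ### eigenfunctions -/

open Pool.Agent.N661.BH (HP loc)
open Pool.Agent.N661.QB
open Pool.Agent.TH294.RS (hd)

lemma rot_add (q : ℝ × Bool) (w x : ℂ) : rot q (w + x) = rot q w + rot q x := by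
  unfold rot
  split_ifs
  · ring
  · rw [map_add]; ring

lemma rot_norm (q : ℝ × Bool) (w : ℂ) : ‖rot q w‖ = ‖w‖ := by
  unfold rot
  split_ifs
  · rw [norm_mul, Complex.norm_exp_ofReal_mul_I, one_mul]
  · rw [norm_mul, Complex.norm_exp_ofReal_mul_I, one_mul, RCLike.norm_conj]

lemma Y_eq (lam : ℝ) (u : ℂ → ℝ) (w z : ℂ) (q : ℝ × Bool) :
    Y lam u w (z, q) = u (mv (1 / √lam) (rot q w) z) := by
  unfold Y loc mv
  congr 3
  ring_nf

lemma HP_op : IsOpen HP := isOpen_lt continuous_const Complex.continuous_im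

lemma hdn {Ω : Set ℂ} {lam : ℕ → ℝ} {u : ℕ → ℂ → ℝ} (H : HypE Ω lam u) (n : ℕ) {z : ℂ}
    (hz : z ∈ Ω) (v : ℂ) :
    ‖hd (fun n => 1 / √(lam n)) v (Pool.Agent.N814.BHASM.wl lam u 0) n z‖ =
      1 / √(lam n) * |fderiv ℝ (u n) z v| := by
  have h1 : DifferentiableAt ℝ (u n) z :=
    (((H.sm n).contDiffAt (HP_op.mem_nhds (H.sub hz))).differentiableAt (by simp))
  have h2 : HasFDerivAt (fun z => ((u n z : ℝ) : ℂ)) (Complex.ofRealCLM.comp (fderiv ℝ (u n) z)) z :=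
    Complex.ofRealCLM.hasFDerivAt.comp z h1.hasFDerivAt
  have h3 : fderiv ℝ (Pool.Agent.N814.BHASM.wl lam u 0 n) z v = ((fderiv ℝ (u n) z v : ℝ) : ℂ) := by
    have h4 : fderiv ℝ (Pool.Agent.N814.BHASM.wl lam u 0 n) z =
        Complex.ofRealCLM.comp (fderiv ℝ (u n) z) := h2.fderiv
    rw [h4]
    rfl
  unfold hd
  rw [h3, norm_mul, Complex.norm_real, Complex.norm_real, Real.norm_eq_abs, Real.norm_eq_abs,
    abs_of_nonneg (by positivity)]

lemma bdd {Ω : Set ℂ} {lam : ℕ → ℝ} {u : ℕ → ℂ → ℝ} (H : HypE Ω lam u)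
    (S : SY0 Ω (fun n => 1 / √(lam n)) (Pool.Agent.N814.BHASM.wl lam u)) {K' : Set ℂ}
    (hK : IsCompact K') (hKO : K' ⊆ Ω) : ∃ E0 : ℝ, 0 ≤ E0 ∧ ∀ᶠ n in atTop,
      ∫ z in K', 1 / √(lam n) * ‖fderiv ℝ (u n) z‖ ≤ E0 := by
  obtain ⟨C1, h1⟩ := (S.bd 0).d1.lb.bd K' hK hKO
  obtain ⟨C2, h2⟩ := (S.bd 0).dI.lb.bd K' hK hKO
  refine ⟨max (volume.real K' + C1 + C2) 0, le_max_right _ _, ?_⟩
  filter_upwards [h1, h2] with n a1 a2
  refine le_trans ?_ (le_max_left _ _)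
  have c1 : IntegrableOn (fun z => ‖hd (fun n => 1 / √(lam n)) 1
      (Pool.Agent.N814.BHASM.wl lam u 0) n z‖ ^ 2) K' volume :=
    ((((S.bd 0).d1.co n).mono hKO).norm.pow 2).integrableOn_compact hK
  have c2 : IntegrableOn (fun z => ‖hd (fun n => 1 / √(lam n)) I
      (Pool.Agent.N814.BHASM.wl lam u 0) n z‖ ^ 2) K' volume :=
    ((((S.bd 0).dI.co n).mono hKO).norm.pow 2).integrableOn_compact hK
  have c0 : IntegrableOn (fun _ : ℂ => (1 : ℝ)) K' volume := integrableOn_const hK.measure_lt_top.ne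
  have c01 : IntegrableOn (fun z => 1 + ‖hd (fun n => 1 / √(lam n)) 1
      (Pool.Agent.N814.BHASM.wl lam u 0) n z‖ ^ 2) K' volume := c0.add c1
  have cfd : ContinuousOn (fun z => fderiv ℝ (u n) z) Ω :=
    (((H.sm n).mono H.sub).continuousOn_fderiv_of_isOpen H.op (by simp))
  have c3 : IntegrableOn (fun z => 1 / √(lam n) * ‖fderiv ℝ (u n) z‖) K' volume :=
    (continuousOn_const.mul (cfd.mono hKO).norm).integrableOn_compact hK
  calc ∫ z in K', 1 / √(lam n) * ‖fderiv ℝ (u n) z‖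
      ≤ ∫ z in K', ((1 + ‖hd (fun n => 1 / √(lam n)) 1 (Pool.Agent.N814.BHASM.wl lam u 0) n z‖ ^ 2) +
          ‖hd (fun n => 1 / √(lam n)) I (Pool.Agent.N814.BHASM.wl lam u 0) n z‖ ^ 2) := by
        refine setIntegral_mono_on c3 (c01.add c2) hK.measurableSet fun z hz => ?_
        rw [hdn H n (hKO hz), hdn H n (hKO hz)]
        have e1 := opn (fderiv ℝ (u n) z)
        have e2 : 0 ≤ 1 / √(lam n) := by positivity
        have e3 := mul_le_mul_of_nonneg_left e1 e2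
        have e4 := sq_nonneg (1 / √(lam n) * |fderiv ℝ (u n) z 1| - 1)
        have e5 := sq_nonneg (1 / √(lam n) * |fderiv ℝ (u n) z I| - 1)
        have e6 := sq_nonneg (1 / √(lam n) * |fderiv ℝ (u n) z 1|)
        have e7 := sq_nonneg (1 / √(lam n) * |fderiv ℝ (u n) z I|)
        nlinarith
    _ = volume.real K' + (∫ z in K', ‖hd (fun n => 1 / √(lam n)) 1
          (Pool.Agent.N814.BHASM.wl lam u 0) n z‖ ^ 2) +
          ∫ z in K', ‖hd (fun n => 1 / √(lam n)) I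
            (Pool.Agent.N814.BHASM.wl lam u 0) n z‖ ^ 2 := by
        rw [integral_add c01 c2, integral_add c0 c1, setIntegral_const, smul_eq_mul,
          mul_one]
    _ ≤ _ := by linarith

theorem SH : S_SYS → S_SH := by
  intro hS Ω lam u H φ hφ G C hG0 hG w1 w2 x ε hε
  have S := hS Ω lam u H
  obtain ⟨U, K', δ, M, c⟩ := Pool.Agent.N645.BH.cfe S.op hφ
  obtain ⟨R, hR⟩ := c.hK.isBounded.exists_norm_le
  obtain ⟨K, A, hK, hA, ht⟩ := tst hφ.1 hφ.2.1
  obtain ⟨E0, hE0, hE⟩ := bdd H S c.hK c.KB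
  have g : Geo Ω U K' φ δ M |R| :=
    ⟨S.op, hφ.1, hφ.2.1, c.hU, c.sU, c.hK, c.KB, c.UK, c.dp, c.d2, c.mem, c.hM,
      fun z hz => (Complex.abs_im_le_norm z).trans ((hR z hz).trans (le_abs_self R))⟩
  have hC0 : 0 ≤ C := (abs_nonneg _).trans (hG0 0 0)
  have hM0 : 0 ≤ M := c.M0
  have l1 : Tendsto (fun n => 1 / √(lam n) * (‖x‖ + 2 * ‖w1‖ + 2 * ‖w2‖)) atTop (𝓝 0) := by
    have := S.hlim.mul_const (‖x‖ + 2 * ‖w1‖ + 2 * ‖w2‖)
    rwa [zero_mul] at this
  have l2 : Tendsto (fun n => 1 / √(lam n) *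
      (C * (M * (|R| * (‖x‖ * ‖w1‖)) * (2 * E0) + M * (|R| * (‖x‖ * ‖w2‖)) * (2 * E0)) +
      C * (A * ‖x‖) * volume.real K)) atTop (𝓝 0) := by
    have := S.hlim.mul_const
      (C * (M * (|R| * (‖x‖ * ‖w1‖)) * (2 * E0) + M * (|R| * (‖x‖ * ‖w2‖)) * (2 * E0)) +
      C * (A * ‖x‖) * volume.real K)
    rwa [zero_mul] at this
  filter_upwards [hE, l1.eventually (gt_mem_nhds c.dp), l2.eventually (gt_mem_nhds hε)]
    with n b1 b2 b3 q
  have hh : 0 < 1 / √(lam n) := S.hpos n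
  have key := g.one hK ht ((H.sm n).mono H.sub) hh hG0 hG (a1 := rot q w1) (a2 := rot q w2)
    (b := rot q x) (by rw [rot_norm, rot_norm, rot_norm]; exact b2.le) (abs_nonneg R)
  simp only [Y_eq, rot_add]
  refine key.trans ?_
  rw [rot_norm, rot_norm, rot_norm]
  refine le_trans ?_ b3.le
  set h : ℝ := 1 / √(lam n) with hh'
  have hh0 := hh.le
  calc C * (M * (|R| * (h * ‖x‖ * ‖w1‖)) * (2 * ∫ z in K', h * ‖fderiv ℝ (u n) z‖) +
      M * (|R| * (h * ‖x‖ * ‖w2‖)) * (2 * ∫ z in K', h * ‖fderiv ℝ (u n) z‖)) +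
      C * (A * (h * ‖x‖)) * volume.real K ≤
      C * (M * (|R| * (h * ‖x‖ * ‖w1‖)) * (2 * E0) +
      M * (|R| * (h * ‖x‖ * ‖w2‖)) * (2 * E0)) +
      C * (A * (h * ‖x‖)) * volume.real K := by gcongr
    _ = _ := by ring

end

end Pool.Agent.N945.QB
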