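import Mathlib
import Pool.Agent.N906.SZ.Stm

set_option autoImplicit false

namespace Pool.Agent.N945.SZ

open Finset Pool.Agent.N906.SZ

/-- an odd power of a prime dividing a square -/
theorem odd_sq {p : ℕ} (hp : p.Prime) : ∀ (k : ℕ) (b : ℤ), (p : ℤ) ^ (2 * k + 1) ∣ b ^ 2 →
    (p : ℤ) ^ (k + 1) ∣ b := by
  have hpZ : Prime (p : ℤ) := Nat.prime_iff_prime_int.mp hp
  have hp0 : (p : ℤ) ≠ 0 := hpZ.ne_zero
  intro k
  induction k with
  | zero =>
    intro b hb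
    have : (p : ℤ) ∣ b ^ 2 := by simpa using hb
    simpa using hpZ.dvd_of_dvd_pow this
  | succ k ih =>
    intro b hb
    have h1 : (p : ℤ) ∣ b ^ 2 := dvd_trans (dvd_pow_self _ (by omega)) hb
    obtain ⟨c, rfl⟩ := hpZ.dvd_of_dvd_pow h1
    have h2 : (p : ℤ) ^ (2 * k + 1) ∣ c ^ 2 := by
      have : (p : ℤ) ^ 2 * (p : ℤ) ^ (2 * k + 1) ∣ (p : ℤ) ^ 2 * c ^ 2 := by
        have e1 : (p : ℤ) ^ 2 * (p : ℤ) ^ (2 * k + 1) = (p : ℤ) ^ (2 * (k + 1) + 1) := by ring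
        have e2 : (p : ℤ) ^ 2 * c ^ 2 = ((p : ℤ) * c) ^ 2 := by ring
        rw [e1, e2]; exact hb
      exact (mul_dvd_mul_iff_left (pow_ne_zero 2 hp0)).mp this
    have h3 := ih c h2
    have : (p : ℤ) ^ (k + 1 + 1) = (p : ℤ) * (p : ℤ) ^ (k + 1) := by ring
    rw [this]
    exact mul_dvd_mul_left _ h3

theorem cop27 {p : ℕ} (hp : p.Prime) (h5 : 5 ≤ p) (m : ℕ) : IsCoprime ((p : ℤ) ^ m) 27 := by
  have h : Nat.Coprime p 27 := by
    rw [hp.coprime_iff_not_dvd]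
    intro h
    have h' : p ∣ 3 ^ 3 := by simpa using h
    have := hp.dvd_of_dvd_pow h'
    have := (Nat.prime_dvd_prime_iff_eq hp Nat.prime_three).mp this
    omega
  have : IsCoprime (p : ℤ) 27 := by
    have := Nat.isCoprime_iff_coprime.mpr h
    simpa using this
  exact this.pow_left

theorem cop4 {p : ℕ} (hp : p.Prime) (h5 : 5 ≤ p) (m : ℕ) : IsCoprime ((p : ℤ) ^ m) 4 := by
  have h : Nat.Coprime p 4 := by
    rw [hp.coprime_iff_not_dvd]
    intro h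
    have h' : p ∣ 2 ^ 2 := by simpa using h
    have := hp.dvd_of_dvd_pow h'
    have := (Nat.prime_dvd_prime_iff_eq hp Nat.prime_two).mp this
    omega
  have : IsCoprime (p : ℤ) 4 := by
    have := Nat.isCoprime_iff_coprime.mpr h
    simpa using this
  exact this.pow_left

/-- if `p^m` divides `D` and `4a³` then it divides `b²` -/
theorem b2_of {p : ℕ} (hp : p.Prime) (h5 : 5 ≤ p) {m : ℕ} {a b : ℤ}
    (h1 : (p : ℤ) ^ m ∣ 4 * a ^ 3 - 27 * b ^ 2) (h2 : (p : ℤ) ^ m ∣ 4 * a ^ 3) :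
    (p : ℤ) ^ m ∣ b ^ 2 := by
  have h3 : (p : ℤ) ^ m ∣ 27 * b ^ 2 := by
    have := dvd_sub h2 h1
    simpa using this
  exact (cop27 hp h5 m).dvd_of_dvd_mul_left h3

theorem a3_of {p : ℕ} (hp : p.Prime) (h5 : 5 ≤ p) {m : ℕ} {a b : ℤ}
    (h1 : (p : ℤ) ^ m ∣ 4 * a ^ 3 - 27 * b ^ 2) (h2 : (p : ℤ) ^ m ∣ b ^ 2) :
    (p : ℤ) ^ m ∣ a ^ 3 := by
  have h3 : (p : ℤ) ^ m ∣ 4 * a ^ 3 := by
    have := dvd_add h1 (Dvd.dvd.mul_left h2 27)
    simpa using this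
  exact (cop4 hp h5 m).dvd_of_dvd_mul_left h3

/-- two classes, units -/
theorem unit_cl {p : ℕ} (hp : p.Prime) (h5 : 5 ≤ p) {k : ℕ} (hk : 1 ≤ k) {a b b' : ℤ}
    (ha : ¬ (p : ℤ) ∣ a) (h1 : (p : ℤ) ^ k ∣ 4 * a ^ 3 - 27 * b ^ 2)
    (h2 : (p : ℤ) ^ k ∣ 4 * a ^ 3 - 27 * b' ^ 2) :
    (p : ℤ) ^ k ∣ b - b' ∨ (p : ℤ) ^ k ∣ b + b' := by
  have hpZ : Prime (p : ℤ) := Nat.prime_iff_prime_int.mp hp
  have h3 : (p : ℤ) ^ k ∣ 27 * ((b - b') * (b + b')) := by
    have := dvd_sub h2 h1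
    have e : 4 * a ^ 3 - 27 * b' ^ 2 - (4 * a ^ 3 - 27 * b ^ 2) = 27 * ((b - b') * (b + b')) := by ring
    rwa [e] at this
  have h4 := (cop27 hp h5 k).dvd_of_dvd_mul_left h3
  have hb : ¬ (p : ℤ) ∣ b := by
    intro hb
    have h6 : (p : ℤ) ^ 1 ∣ 4 * a ^ 3 - 27 * b ^ 2 := dvd_trans (pow_dvd_pow _ hk) h1
    have h7 : (p : ℤ) ^ 1 ∣ b ^ 2 := by
      simpa using dvd_pow hb (two_ne_zero)
    have h8 := a3_of hp h5 h6 h7
    rw [pow_one] at h8
    exact ha (hpZ.dvd_of_dvd_pow h8)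
  by_cases h9 : (p : ℤ) ∣ b - b'
  · have h10 : ¬ (p : ℤ) ∣ b + b' := by
      intro h10
      have h11 : (p : ℤ) ∣ 2 * b := by
        have := dvd_add h9 h10
        have e : b - b' + (b + b') = 2 * b := by ring
        rwa [e] at this
      rcases hpZ.dvd_or_dvd h11 with h12 | h12
      · have : (p : ℤ) ≤ 2 := Int.le_of_dvd (by norm_num) h12
        omega
      · exact hb h12
    left
    have : IsCoprime ((p : ℤ) ^ k) (b + b') := by
      apply IsCoprime.pow_left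
      exact (hpZ.coprime_iff_not_dvd).mpr h10
    exact this.dvd_of_dvd_mul_right h4
  · right
    have : IsCoprime ((p : ℤ) ^ k) (b - b') := by
      apply IsCoprime.pow_left
      exact (hpZ.coprime_iff_not_dvd).mpr h9
    exact this.dvd_of_dvd_mul_left h4

/-- the exponents of the shapes -/
def al (g s : ℕ) : ℕ :=
  if s = 0 then 0 else if s = 1 then (if g = 1 then 1 else 2) else (if g = 8 then 4 else 3)

def ka (g s : ℕ) : ℕ :=
  if s = 0 then g + 1 else if s = 1 then (if g ≤ 2 then 2 else if g ≤ 4 then 3 else g - 1)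
  else (if g ≤ 6 then 4 else if g ≤ 8 then 5 else g + 1)

theorem al_ka (g s : ℕ) (hg : 1 ≤ g) : g + 1 ≤ al g s + ka g s := by
  unfold al ka
  split_ifs <;> omega

open Classical in
/-- the shape -/
noncomputable def sh (p g : ℕ) (a : ℤ) : ℕ :=
  if ¬ (p : ℤ) ∣ a then 0 else if g ≤ 4 ∨ ¬ (p : ℤ) ^ 3 ∣ a then 1 else 2

theorem sh_lt (p g : ℕ) (a : ℤ) : sh p g a < 3 := by
  unfold sh; split_ifs <;> omega

/-- the first facts for `p ∣ a` -/
theorem fa {p : ℕ} (hp : p.Prime) (h5 : 5 ≤ p) {a b : ℤ} (ha : (p : ℤ) ∣ a)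
    (h : (p : ℤ) ^ 3 ∣ 4 * a ^ 3 - 27 * b ^ 2) : (p : ℤ) ^ 2 ∣ b := by
  have h1 : (p : ℤ) ^ 3 ∣ 4 * a ^ 3 := Dvd.dvd.mul_left (pow_dvd_pow_of_dvd ha 3) 4
  exact odd_sq hp 1 b (b2_of hp h5 h h1)

theorem fa2 {p : ℕ} (hp : p.Prime) (h5 : 5 ≤ p) {a b : ℤ} (ha : (p : ℤ) ∣ a)
    (h : (p : ℤ) ^ 4 ∣ 4 * a ^ 3 - 27 * b ^ 2) : (p : ℤ) ^ 2 ∣ a := by
  have hpZ : Prime (p : ℤ) := Nat.prime_iff_prime_int.mp hp
  have hb := fa hp h5 ha (dvd_trans (pow_dvd_pow _ (by norm_num)) h)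
  have h1 : (p : ℤ) ^ 4 ∣ b ^ 2 := by
    have := pow_dvd_pow_of_dvd hb 2
    rwa [← pow_mul] at this
  have h2 := a3_of hp h5 h h1
  obtain ⟨c, rfl⟩ := ha
  have h3 : (p : ℤ) ∣ c ^ 3 := by
    have e1 : (p : ℤ) ^ 4 = (p : ℤ) ^ 3 * p := by ring
    have e2 : ((p : ℤ) * c) ^ 3 = (p : ℤ) ^ 3 * c ^ 3 := by ring
    rw [e1, e2] at h2
    exact (mul_dvd_mul_iff_left (pow_ne_zero 3 hpZ.ne_zero)).mp h2
  have h4 := hpZ.dvd_of_dvd_pow h3
  rw [pow_two]
  exact mul_dvd_mul_left _ h4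

theorem fa3 {p : ℕ} (hp : p.Prime) (h5 : 5 ≤ p) {a b : ℤ} (ha : (p : ℤ) ∣ a)
    (h : (p : ℤ) ^ 5 ∣ 4 * a ^ 3 - 27 * b ^ 2) : (p : ℤ) ^ 2 ∣ a ∧ (p : ℤ) ^ 3 ∣ b := by
  have h2 := fa2 hp h5 ha (dvd_trans (pow_dvd_pow _ (by norm_num)) h)
  refine ⟨h2, ?_⟩
  have h1 : (p : ℤ) ^ 5 ∣ 4 * a ^ 3 := by
    have := pow_dvd_pow_of_dvd h2 3
    rw [← pow_mul] at this
    exact Dvd.dvd.mul_left (dvd_trans (pow_dvd_pow _ (by norm_num)) this) 4
  exact odd_sq hp 2 b (b2_of hp h5 h h1)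

/-- the local condition -/
def Lc (p g : ℕ) (a b : ℤ) : Prop :=
  (p : ℤ) ^ (g + fe p a) ∣ Dd a b ∧ ¬ ((p : ℤ) ^ 4 ∣ a ∧ (p : ℤ) ^ 6 ∣ b)

/-- everything for `v(a) ≥ 3` and `g ≥ 5` -/
theorem big {p : ℕ} (hp : p.Prime) (h5 : 5 ≤ p) {g : ℕ} (hg : 5 ≤ g) {a b : ℤ}
    (ha : (p : ℤ) ^ 3 ∣ a) (h : (p : ℤ) ^ (g + 2) ∣ 4 * a ^ 3 - 27 * b ^ 2)
    (hm : ¬ ((p : ℤ) ^ 4 ∣ a ∧ (p : ℤ) ^ 6 ∣ b)) :
    (p : ℤ) ^ al g 2 ∣ a ∧ (p : ℤ) ^ ka g 2 ∣ b := by
  have hpZ : Prime (p : ℤ) := Nat.prime_iff_prime_int.mp hp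
  have h9 : (p : ℤ) ^ 9 ∣ 4 * a ^ 3 := by
    have := pow_dvd_pow_of_dvd ha 3
    rw [← pow_mul] at this
    exact Dvd.dvd.mul_left this 4
  have h7 : (p : ℤ) ^ 4 ∣ b :=
    odd_sq hp 3 b (b2_of hp h5 (dvd_trans (pow_dvd_pow _ (by omega)) h)
      (dvd_trans (pow_dvd_pow _ (by norm_num)) h9))
  have hk : 7 ≤ g → (p : ℤ) ^ 5 ∣ b := fun h7 =>
    odd_sq hp 4 b (b2_of hp h5 (dvd_trans (pow_dvd_pow _ (by omega)) h)
      (dvd_trans (pow_dvd_pow _ (by norm_num)) h9))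
  have ha4 : 8 ≤ g → (p : ℤ) ^ 4 ∣ a := by
    intro h8
    have hb := hk (by omega)
    have h10 : (p : ℤ) ^ 10 ∣ b ^ 2 := by
      have := pow_dvd_pow_of_dvd hb 2
      rwa [← pow_mul] at this
    have h11 := a3_of hp h5 (dvd_trans (pow_dvd_pow _ (by omega)) h) h10
    obtain ⟨c, rfl⟩ := ha
    have h3 : (p : ℤ) ∣ c ^ 3 := by
      have e1 : (p : ℤ) ^ 10 = (p : ℤ) ^ 9 * p := by ring
      have e2 : ((p : ℤ) ^ 3 * c) ^ 3 = (p : ℤ) ^ 9 * c ^ 3 := by ring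
      rw [e1, e2] at h11
      exact (mul_dvd_mul_iff_left (pow_ne_zero 9 hpZ.ne_zero)).mp h11
    have h4 := hpZ.dvd_of_dvd_pow h3
    have e : (p : ℤ) ^ 4 = (p : ℤ) ^ 3 * p := by ring
    rw [e]
    exact mul_dvd_mul_left _ h4
  have h9' : g ≤ 8 := by
    by_contra hcon
    push Not at hcon
    have ha' := ha4 (by omega)
    have h12 : (p : ℤ) ^ 11 ∣ 4 * a ^ 3 := by
      have := pow_dvd_pow_of_dvd ha' 3
      rw [← pow_mul] at this
      exact Dvd.dvd.mul_left (dvd_trans (pow_dvd_pow _ (by norm_num)) this) 4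
    exact hm ⟨ha', odd_sq hp 5 b (b2_of hp h5 (dvd_trans (pow_dvd_pow _ (by omega)) h) h12)⟩
  constructor
  · unfold al
    rw [if_neg (by norm_num), if_neg (by norm_num)]
    split_ifs with h8
    · exact ha4 (by omega)
    · exact ha
  · unfold ka
    rw [if_neg (by norm_num), if_neg (by norm_num)]
    split_ifs with h8
    · exact h7
    · exact hk (by omega)

/-- (1): divisibility of `a` -/
theorem loc_a {p : ℕ} (hp : p.Prime) (h5 : 5 ≤ p) {g : ℕ} (hg : 1 ≤ g) {a b : ℤ}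
    (h : Lc p g a b) : (p : ℤ) ^ al g (sh p g a) ∣ a := by
  obtain ⟨h1, hm⟩ := h
  unfold fe Dd at h1
  rw [if_neg (by omega)] at h1
  by_cases ha : (p : ℤ) ∣ a
  · rw [if_pos ha] at h1
    by_cases hs : g ≤ 4 ∨ ¬ (p : ℤ) ^ 3 ∣ a
    · have e : sh p g a = 1 := by unfold sh; rw [if_neg (by simpa using ha), if_pos hs]
      rw [e]
      unfold al
      rw [if_neg (by norm_num), if_pos rfl]
      split_ifs with hg1
      · simpa using ha
      · exact fa2 hp h5 ha (dvd_trans (pow_dvd_pow _ (by omega)) h1)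
    · have e : sh p g a = 2 := by unfold sh; rw [if_neg (by simpa using ha), if_neg hs]
      rw [e]
      push Not at hs
      exact (big hp h5 (by omega) hs.2 h1 hm).1
  · have e : sh p g a = 0 := by unfold sh; rw [if_pos ha]
    rw [e]
    simp [al]

/-- (2): at most two classes for `b` -/
theorem loc_b {p : ℕ} (hp : p.Prime) (h5 : 5 ≤ p) {g : ℕ} (hg : 1 ≤ g) {a b b' : ℤ}
    (h : Lc p g a b) (h' : Lc p g a b') :
    (p : ℤ) ^ ka g (sh p g a) ∣ b - b' ∨ (p : ℤ) ^ ka g (sh p g a) ∣ b + b' := by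
  have hpZ : Prime (p : ℤ) := Nat.prime_iff_prime_int.mp hp
  obtain ⟨h1, hm⟩ := h
  obtain ⟨h1', hm'⟩ := h'
  unfold fe Dd at h1 h1'
  rw [if_neg (by omega)] at h1 h1'
  by_cases ha : (p : ℤ) ∣ a
  · rw [if_pos ha] at h1 h1'
    by_cases hs : g ≤ 4 ∨ ¬ (p : ℤ) ^ 3 ∣ a
    · have e : sh p g a = 1 := by unfold sh; rw [if_neg (by simpa using ha), if_pos hs]
      rw [e]
      unfold ka
      rw [if_neg (by norm_num), if_pos rfl]
      split_ifs with hg1 hg2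
      · left
        exact dvd_sub (fa hp h5 ha (dvd_trans (pow_dvd_pow _ (by omega)) h1))
          (fa hp h5 ha (dvd_trans (pow_dvd_pow _ (by omega)) h1'))
      · left
        exact dvd_sub (fa3 hp h5 ha (dvd_trans (pow_dvd_pow _ (by omega)) h1)).2
          (fa3 hp h5 ha (dvd_trans (pow_dvd_pow _ (by omega)) h1')).2
      · have hs' : ¬ (p : ℤ) ^ 3 ∣ a := by
          rcases hs with hs | hs
          · omega
          · exact hs
        obtain ⟨h2, h3⟩ := fa3 hp h5 ha (dvd_trans (pow_dvd_pow _ (by omega)) h1)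
        obtain ⟨-, h3'⟩ := fa3 hp h5 ha (dvd_trans (pow_dvd_pow _ (by omega)) h1')
        obtain ⟨a₁, rfl⟩ := h2
        obtain ⟨b₁, rfl⟩ := h3
        obtain ⟨b₁', rfl⟩ := h3'
        have ha1 : ¬ (p : ℤ) ∣ a₁ := by
          intro hc
          apply hs'
          have e : (p : ℤ) ^ 3 = (p : ℤ) ^ 2 * p := by ring
          rw [e]
          exact mul_dvd_mul_left _ hc
        have key : ∀ c : ℤ, (p : ℤ) ^ (g + 2) ∣ 4 * ((p : ℤ) ^ 2 * a₁) ^ 3 - 27 * ((p : ℤ) ^ 3 * c) ^ 2 →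
            (p : ℤ) ^ (g - 4) ∣ 4 * a₁ ^ 3 - 27 * c ^ 2 := by
          intro c hc
          have e1 : (p : ℤ) ^ (g + 2) = (p : ℤ) ^ 6 * (p : ℤ) ^ (g - 4) := by
            rw [← pow_add]; congr 1; omega
          have e2 : 4 * ((p : ℤ) ^ 2 * a₁) ^ 3 - 27 * ((p : ℤ) ^ 3 * c) ^ 2 =
            (p : ℤ) ^ 6 * (4 * a₁ ^ 3 - 27 * c ^ 2) := by ring
          rw [e1, e2] at hc
          exact (mul_dvd_mul_iff_left (pow_ne_zero 6 hpZ.ne_zero)).mp hc
        have e3 : (p : ℤ) ^ (g - 1) = (p : ℤ) ^ 3 * (p : ℤ) ^ (g - 4) := by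
          rw [← pow_add]; congr 1; omega
        rcases unit_cl hp h5 (by omega) ha1 (key b₁ h1) (key b₁' h1') with hc | hc
        · left
          rw [e3, ← mul_sub]
          exact mul_dvd_mul_left _ hc
        · right
          rw [e3, ← mul_add]
          exact mul_dvd_mul_left _ hc
    · have e : sh p g a = 2 := by unfold sh; rw [if_neg (by simpa using ha), if_neg hs]
      rw [e]
      push Not at hs
      left
      exact dvd_sub (big hp h5 (by omega) hs.2 h1 hm).2 (big hp h5 (by omega) hs.2 h1' hm').2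
  · have e : sh p g a = 0 := by unfold sh; rw [if_pos ha]
    rw [if_neg ha] at h1 h1'
    rw [e]
    have : ka g 0 = g + 1 := by simp [ka]
    rw [this]
    exact unit_cl hp h5 (by omega) ha h1 h1'

theorem cnt1 (G : Finset ℤ) (K : ℕ) (hK : 1 ≤ K) (u L : ℝ)
    (h1 : ∀ b ∈ G, ∀ b' ∈ G, (K : ℤ) ∣ b - b') (h2 : ∀ b ∈ G, u ≤ (b : ℝ) ∧ (b : ℝ) ≤ u + L) :
    G.card ≤ ⌊L / K⌋₊ + 1 := by
  rcases G.eq_empty_or_nonempty with rfl | hne
  · simp
  have hK' : (0 : ℝ) < K := by exact_mod_cast hK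
  have hKZ : (0 : ℤ) < K := by exact_mod_cast hK
  obtain ⟨m, hm, hmin⟩ := G.exists_minimal hne
  have hmin' : ∀ b ∈ G, m ≤ b := by
    intro b hb
    rcases le_total m b with h | h
    · exact h
    · exact hmin hb h
  have hcard : G.card ≤ (Finset.range (⌊L / K⌋₊ + 1)).card := by
    apply Finset.card_le_card_of_injOn (fun b => ((b - m) / K).toNat)
    · intro b hb
      simp only [Finset.coe_range, Set.mem_Iio]
      rw [Nat.lt_add_one_iff]
      apply Nat.le_floor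
      have h0 : (0 : ℤ) ≤ (b - m) / K := Int.ediv_nonneg (by linarith [hmin' b hb]) hKZ.le
      have h3 : ((((b - m) / K).toNat : ℕ) : ℝ) = (((b - m) / K : ℤ) : ℝ) := by
        rw [← Int.cast_natCast, Int.toNat_of_nonneg h0]
      rw [h3, le_div_iff₀ hK']
      have h4 : (b - m) / K * K ≤ b - m := Int.ediv_mul_le _ hKZ.ne'
      have h5 : (((b - m) / K * K : ℤ) : ℝ) ≤ ((b - m : ℤ) : ℝ) := by exact_mod_cast h4
      push_cast at h5
      have := (h2 b hb).2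
      have := (h2 m hm).1
      linarith
    · intro b hb b' hb' hbb
      simp only at hbb
      have h0 : (0 : ℤ) ≤ (b - m) / K := Int.ediv_nonneg (by linarith [hmin' b hb]) hKZ.le
      have h0' : (0 : ℤ) ≤ (b' - m) / K := Int.ediv_nonneg (by linarith [hmin' b' hb']) hKZ.le
      have h3 : (b - m) / K = (b' - m) / K := by
        rw [← Int.toNat_of_nonneg h0, ← Int.toNat_of_nonneg h0', hbb]
      have h4 := Int.ediv_mul_cancel (h1 b hb m hm)
      have h5 := Int.ediv_mul_cancel (h1 b' hb' m hm)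
      rw [h3] at h4
      linarith
  simpa using hcard

theorem cop_pw {P : Finset ℕ} (hP : ∀ p ∈ P, p.Prime) (κ : ℕ → ℕ) :
    (P : Set ℕ).Pairwise (Function.onFun IsCoprime (fun p : ℕ => ((p : ℤ) ^ κ p))) := by
  intro p hp q hq hpq
  simp only [Function.onFun]
  apply IsCoprime.pow
  exact Nat.isCoprime_iff_coprime.mpr ((Nat.coprime_primes (hP p hp) (hP q hq)).mpr hpq)

theorem cl (P : Finset ℕ) (hP : ∀ p ∈ P, p.Prime) (κ : ℕ → ℕ) (B : Finset ℤ)
    (h : ∀ b ∈ B, ∀ b' ∈ B, ∀ p ∈ P, (p : ℤ) ^ κ p ∣ b - b' ∨ (p : ℤ) ^ κ p ∣ b + b')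
    (u L : ℝ) (hL : 0 ≤ L) (h2 : ∀ b ∈ B, u ≤ (b : ℝ) ∧ (b : ℝ) ≤ u + L) :
    (B.card : ℝ) ≤ 2 ^ P.card * (L / (∏ p ∈ P, p ^ κ p : ℕ) + 1) := by
  classical
  set K : ℕ := ∏ p ∈ P, p ^ κ p with hKdef
  have hK : 1 ≤ K := Finset.prod_pos (fun p hp => pow_pos (hP p hp).pos _)
  have hK' : (0 : ℝ) < K := by exact_mod_cast hK
  rcases B.eq_empty_or_nonempty with rfl | ⟨b₀, hb₀⟩
  · simp; positivity
  let f : ℤ → Finset ℕ := fun b => P.filter (fun p : ℕ => (p : ℤ) ^ κ p ∣ b - b₀)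
  have hfib : ∀ T ∈ B.image f, (B.filter (fun b => f b = T)).card ≤ ⌊L / K⌋₊ + 1 := by
    intro T _
    apply cnt1 _ K hK u L
    · intro b hb b' hb'
      rw [Finset.mem_filter] at hb hb'
      have hff : f b = f b' := hb.2.trans hb'.2.symm
      have : ((K : ℕ) : ℤ) = ∏ p ∈ P, ((p : ℤ) ^ κ p) := by
        rw [hKdef]; push_cast; rfl
      rw [this]
      apply Finset.prod_dvd_of_coprime (cop_pw hP κ)
      intro p hp
      by_cases hq : p ∈ f b
      · have hq' : p ∈ f b' := hff ▸ hq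
        have e1 := (Finset.mem_filter.mp hq).2
        have e2 := (Finset.mem_filter.mp hq').2
        have := dvd_sub e1 e2
        have e : b - b₀ - (b' - b₀) = b - b' := by ring
        rwa [e] at this
      · have hq' : p ∉ f b' := hff ▸ hq
        have e1 : ¬ (p : ℤ) ^ κ p ∣ b - b₀ := fun hc => hq (Finset.mem_filter.mpr ⟨hp, hc⟩)
        have e2 : ¬ (p : ℤ) ^ κ p ∣ b' - b₀ := fun hc => hq' (Finset.mem_filter.mpr ⟨hp, hc⟩)
        have e3 := (h b hb.1 b₀ hb₀ p hp).resolve_left e1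
        have e4 := (h b' hb'.1 b₀ hb₀ p hp).resolve_left e2
        have := dvd_sub e3 e4
        have e : b + b₀ - (b' + b₀) = b - b' := by ring
        rwa [e] at this
    · intro b hb
      exact h2 b (Finset.mem_filter.mp hb).1
  have h3 := Finset.card_le_mul_card_image B (⌊L / K⌋₊ + 1) hfib
  have h4 : (B.image f).card ≤ 2 ^ P.card := by
    rw [← Finset.card_powerset]
    apply Finset.card_le_card
    intro T hT
    obtain ⟨b, _, rfl⟩ := Finset.mem_image.mp hT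
    exact Finset.mem_powerset.mpr (Finset.filter_subset _ _)
  have h5 : (B.card : ℝ) ≤ ((⌊L / K⌋₊ : ℝ) + 1) * 2 ^ P.card := by
    calc (B.card : ℝ) ≤ (((⌊L / K⌋₊ + 1) * (B.image f).card : ℕ) : ℝ) := by exact_mod_cast h3
      _ ≤ (((⌊L / K⌋₊ + 1) * 2 ^ P.card : ℕ) : ℝ) := by
          exact_mod_cast Nat.mul_le_mul_left _ h4
      _ = ((⌊L / K⌋₊ : ℝ) + 1) * 2 ^ P.card := by push_cast; ring
  have h6 : (⌊L / K⌋₊ : ℝ) ≤ L / K := Nat.floor_le (by positivity)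
  calc (B.card : ℝ) ≤ ((⌊L / K⌋₊ : ℝ) + 1) * 2 ^ P.card := h5
    _ ≤ (L / K + 1) * 2 ^ P.card := by gcongr
    _ = 2 ^ P.card * (L / K + 1) := by ring

/-- the length of the interval for `|b|` -/
noncomputable def Ln (Y y a : ℝ) : ℝ := 3 * Y / ((|a| + y) * √(|a| + y))

theorem Ln_sq {Y y a : ℝ} (hy : 0 < y) : Ln Y y a ^ 2 = 9 * Y ^ 2 / (|a| + y) ^ 3 := by
  unfold Ln
  have ht : 0 < |a| + y := by positivity
  rw [div_pow, mul_pow, mul_pow, Real.sq_sqrt ht.le]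
  ring

theorem ival {Y y : ℝ} (hy : 0 < y) (hY : y ^ 3 = Y) (a : ℤ) :
    ∃ β : ℝ, ∀ b : ℤ, |((Dd a b : ℤ) : ℝ)| ≤ Y → β ≤ |(b : ℝ)| ∧ |(b : ℝ)| ≤ β + Ln Y y a := by
  have hY0 : 0 < Y := by rw [← hY]; positivity
  have ht : 0 < |(a : ℝ)| + y := by positivity
  have hL0 : 0 ≤ Ln Y y a := by unfold Ln; positivity
  have hLs := Ln_sq (Y := Y) (a := (a : ℝ)) hy
  by_cases ha : (a : ℝ) ≤ y
  · refine ⟨0, fun b hb => ⟨abs_nonneg _, ?_⟩⟩
    rw [abs_le] at hb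
    unfold Dd at hb
    push_cast at hb
    have h1 : 27 * (b : ℝ) ^ 2 ≤ 4 * (a : ℝ) ^ 3 + Y := by linarith [hb.1]
    have h2 : (a : ℝ) ^ 3 ≤ Y := by
      rw [← hY]
      exact (Odd.pow_le_pow (by decide)).mpr ha
    have h3 : -y ≤ (a : ℝ) := by
      by_contra hc
      push Not at hc
      have : (a : ℝ) ^ 3 < (-y) ^ 3 := (Odd.pow_lt_pow (by decide)).mpr hc
      have e : (-y) ^ 3 = -Y := by rw [← hY]; ring
      rw [e] at this
      nlinarith [sq_nonneg (b : ℝ)]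
    have h4 : |(a : ℝ)| ≤ y := abs_le.mpr ⟨h3, ha⟩
    have h5 : (|(a : ℝ)| + y) ^ 3 ≤ 8 * Y := by
      calc (|(a : ℝ)| + y) ^ 3 ≤ (y + y) ^ 3 := by gcongr
        _ = 8 * Y := by rw [← hY]; ring
    have h6 : Y ≤ Ln Y y a ^ 2 := by
      rw [hLs, le_div_iff₀ (by positivity)]
      nlinarith
    rw [zero_add]
    apply abs_le_of_sq_le_sq _ hL0
    nlinarith [sq_nonneg (b : ℝ)]
  · push Not at ha
    have ha0 : 0 < (a : ℝ) := lt_trans hy ha
    have h2 : Y < (a : ℝ) ^ 3 := by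
      rw [← hY]
      exact pow_lt_pow_left₀ ha hy.le (by norm_num)
    refine ⟨√((4 * (a : ℝ) ^ 3 - Y) / 27), fun b hb => ?_⟩
    rw [abs_le] at hb
    unfold Dd at hb
    push_cast at hb
    have hpos : 0 ≤ (4 * (a : ℝ) ^ 3 - Y) / 27 := by
      apply div_nonneg _ (by norm_num)
      linarith
    constructor
    · apply Real.sqrt_le_iff.mpr
      refine ⟨abs_nonneg _, ?_⟩
      rw [sq_abs]
      linarith [hb.2]
    · set β := √((4 * (a : ℝ) ^ 3 - Y) / 27) with hβ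
      have hβs : β ^ 2 = (4 * (a : ℝ) ^ 3 - Y) / 27 := Real.sq_sqrt hpos
      have hβ0 : 0 ≤ β := Real.sqrt_nonneg _
      by_contra hc
      push Not at hc
      have h3 : (β + Ln Y y a) ^ 2 < (b : ℝ) ^ 2 := by
        rw [← sq_abs (b : ℝ)]
        exact pow_lt_pow_left₀ hc (by positivity) (by norm_num)
      have h4 : 27 * (b : ℝ) ^ 2 ≤ 4 * (a : ℝ) ^ 3 + Y := by linarith [hb.1]
      have h5 : (|(a : ℝ)| + y) ^ 3 ≤ 8 * (a : ℝ) ^ 3 := by
        rw [abs_of_pos ha0]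
        calc ((a : ℝ) + y) ^ 3 ≤ ((a : ℝ) + a) ^ 3 := by gcongr
          _ = 8 * (a : ℝ) ^ 3 := by ring
      have h6 : (Y / 4) ^ 2 ≤ (β * Ln Y y a) ^ 2 := by
        rw [mul_pow, hβs, hLs]
        rw [← mul_div_assoc, le_div_iff₀ (by positivity)]
        have e1 : (|(a : ℝ)| + y) ^ 3 / 72 ≤ (4 * (a : ℝ) ^ 3 - Y) / 27 := by linarith
        have e2 : 0 < (|(a : ℝ)| + y) ^ 3 := by positivity
        calc (Y / 4) ^ 2 * (|(a : ℝ)| + y) ^ 3 ≤ ((|(a : ℝ)| + y) ^ 3 / 72) * (9 * Y ^ 2) := by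
              nlinarith [sq_nonneg Y]
          _ ≤ (4 * (a : ℝ) ^ 3 - Y) / 27 * (9 * Y ^ 2) := by gcongr
      have h7 : Y / 4 ≤ β * Ln Y y a := by
        apply le_of_sq_le_sq h6 (by positivity)
      nlinarith [sq_nonneg (Ln Y y a)]

/-- one step of the telescope -/
theorem tel_step {A t : ℝ} (hA : 0 < A) (ht : 0 < t - A) :
    1 / (t * √t) ≤ 2 / A * (1 / √(t - A) - 1 / √t) := by
  have ht0 : 0 < t := by linarith
  set p := √(t - A) with hp
  set q := √t with hq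
  have hp0 : 0 < p := Real.sqrt_pos.mpr ht
  have hq0 : 0 < q := Real.sqrt_pos.mpr ht0
  have hps : p ^ 2 = t - A := Real.sq_sqrt ht.le
  have hqs : q ^ 2 = t := Real.sq_sqrt ht0.le
  have hpq : p ≤ q := Real.sqrt_le_sqrt (by linarith)
  have hAe : A = (q - p) * (q + p) := by nlinarith
  have hqp : 0 < q - p := by
    by_contra hc
    push Not at hc
    nlinarith
  have e : 2 / A * (1 / p - 1 / q) = 2 / ((q + p) * (p * q)) := by
    rw [hAe]
    field_simp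
  rw [e, ← hqs]
  rw [div_le_div_iff₀ (by positivity) (by positivity)]
  have : (q + p) * (p * q) ≤ 2 * q * (q * q) := by
    have h1 : p * q ≤ q * q := by nlinarith
    have h2 : q + p ≤ 2 * q := by linarith
    exact mul_le_mul h2 h1 (by positivity) (by positivity)
  nlinarith

theorem tel (A y : ℝ) (hA : 0 < A) (hy : 0 < y) (N : ℕ) :
    ∑ m ∈ Finset.Icc 1 N, 1 / ((A * m + y) * √(A * m + y)) ≤
      2 / A * (1 / √y - 1 / √(A * N + y)) := by
  induction N with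
  | zero => simp
  | succ N ih =>
    rw [Finset.sum_Icc_succ_top (by omega)]
    have h := tel_step (A := A) (t := A * (N + 1 : ℕ) + y) hA (by push_cast; nlinarith [Nat.cast_nonneg (α := ℝ) N])
    have e : A * ((N + 1 : ℕ) : ℝ) + y - A = A * N + y := by push_cast; ring
    rw [e] at h
    calc _ ≤ 2 / A * (1 / √y - 1 / √(A * N + y)) +
          2 / A * (1 / √(A * N + y) - 1 / √(A * (N + 1 : ℕ) + y)) := add_le_add ih h
      _ = _ := by ring

theorem tel' (A y Y : ℝ) (hA : 0 < A) (hy : 0 < y) (hY : 0 ≤ Y) (N : ℕ) :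
    ∑ m ∈ Finset.Icc 1 N, Ln Y y (A * m) ≤ 6 * Y / (A * √y) := by
  have h := tel A y hA hy N
  have h2 : ∑ m ∈ Finset.Icc 1 N, Ln Y y (A * m) =
      3 * Y * ∑ m ∈ Finset.Icc 1 N, 1 / ((A * m + y) * √(A * m + y)) := by
    rw [Finset.mul_sum]
    apply Finset.sum_congr rfl
    intro m _
    unfold Ln
    rw [abs_of_nonneg (by positivity)]
    ring
  rw [h2]
  have h3 : (0 : ℝ) ≤ 1 / √(A * N + y) := by positivity
  calc 3 * Y * ∑ m ∈ Finset.Icc 1 N, 1 / ((A * m + y) * √(A * m + y))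
      ≤ 3 * Y * (2 / A * (1 / √y - 1 / √(A * N + y))) := by gcongr
    _ ≤ 3 * Y * (2 / A * (1 / √y)) := by
        gcongr
        linarith
    _ = 6 * Y / (A * √y) := by
        have : √y ≠ 0 := (Real.sqrt_pos.mpr hy).ne'
        field_simp
        ring

theorem rega (X Y : ℝ) (hX : 1 ≤ X) (hY : 1 ≤ Y) (A K w : ℕ) (hA : 1 ≤ A) (hK : 1 ≤ K)
    (F : Finset (ℤ × ℤ))
    (h1 : ∀ x ∈ F, x.1 ≠ 0 ∧ |(x.1 : ℝ)| ≤ X ^ 2 ∧ |((Dd x.1 x.2 : ℤ) : ℝ)| ≤ Y ∧ (A : ℤ) ∣ x.1)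
    (h2 : ∀ a : ℤ, ∀ B : Finset ℤ, (∀ b ∈ B, (a, b) ∈ F) → ∀ u L : ℝ, 0 ≤ L →
      (∀ b ∈ B, u ≤ (b : ℝ) ∧ (b : ℝ) ≤ u + L) → (B.card : ℝ) ≤ 2 ^ w * (L / K + 1)) :
    (F.card : ℝ) ≤ 24 * 2 ^ w * (Y ^ (5 / 6 : ℝ) / (A * K) + X ^ 2) := by
  classical
  set y : ℝ := Y ^ (1 / 3 : ℝ) with hydef
  have hY0 : 0 < Y := by linarith
  have hy : 0 < y := Real.rpow_pos_of_pos hY0 _
  have hyY : y ^ 3 = Y := by
    rw [hydef, ← Real.rpow_natCast, ← Real.rpow_mul hY0.le]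
    norm_num
  have hA' : (0 : ℝ) < A := by exact_mod_cast hA
  have hK' : (0 : ℝ) < K := by exact_mod_cast hK
  have hsq : Y / √y = Y ^ (5 / 6 : ℝ) := by
    have : √y = Y ^ (1 / 6 : ℝ) := by
      rw [Real.sqrt_eq_rpow, hydef, ← Real.rpow_mul hY0.le]
      norm_num
    rw [this]
    nth_rewrite 1 [← Real.rpow_one Y]
    rw [← Real.rpow_sub hY0]
    norm_num
  let h : ℝ → ℝ := fun a => 2 * (2 ^ w * (Ln Y y a / K + 1))
  have hLn0 : ∀ a : ℝ, 0 ≤ Ln Y y a := fun a => by unfold Ln; positivity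
  have hh0 : ∀ a : ℝ, 0 ≤ h a := fun a => by
    have := hLn0 a
    positivity
  have hfib : ∀ a : ℤ, ((F.filter (fun x => x.1 = a)).card : ℝ) ≤ h a := by
    intro a
    obtain ⟨β, hβ⟩ := ival hy hyY a
    set G := F.filter (fun x => x.1 = a) with hG
    have hmem : ∀ x ∈ G, (a, x.2) ∈ F ∧ β ≤ |(x.2 : ℝ)| ∧ |(x.2 : ℝ)| ≤ β + Ln Y y a := by
      intro x hx
      obtain ⟨hx1, hx2⟩ := Finset.mem_filter.mp hx
      have : x = (a, x.2) := by rw [← hx2]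
      refine ⟨this ▸ hx1, hβ x.2 ?_⟩
      have := (h1 x hx1).2.2.1
      rwa [hx2] at this
    have hc : G.card = (G.image Prod.snd).card := by
      rw [Finset.card_image_of_injOn]
      intro x hx x' hx' he
      have e1 := (Finset.mem_filter.mp hx).2
      have e2 := (Finset.mem_filter.mp hx').2
      exact Prod.ext (e1.trans e2.symm) he
    set B := G.image Prod.snd with hB
    have hBm : ∀ b ∈ B, (a, b) ∈ F ∧ β ≤ |(b : ℝ)| ∧ |(b : ℝ)| ≤ β + Ln Y y a := by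
      intro b hb
      obtain ⟨x, hx, rfl⟩ := Finset.mem_image.mp hb
      exact hmem x hx
    have hsplit : B.card = (B.filter (fun b => 0 ≤ b)).card + (B.filter (fun b => ¬ 0 ≤ b)).card :=
      (Finset.card_filter_add_card_filter_not (s := B) (fun b => 0 ≤ b)).symm
    have hp : ((B.filter (fun b => 0 ≤ b)).card : ℝ) ≤ 2 ^ w * (Ln Y y a / K + 1) := by
      apply h2 a _ _ β (Ln Y y a) (hLn0 _)
      · intro b hb
        obtain ⟨hb1, hb2⟩ := Finset.mem_filter.mp hb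
        have := (hBm b hb1).2
        rwa [abs_of_nonneg (by exact_mod_cast hb2)] at this
      · intro b hb
        exact (hBm b (Finset.mem_filter.mp hb).1).1
    have hn : ((B.filter (fun b => ¬ 0 ≤ b)).card : ℝ) ≤ 2 ^ w * (Ln Y y a / K + 1) := by
      apply h2 a _ _ (-β - Ln Y y a) (Ln Y y a) (hLn0 _)
      · intro b hb
        obtain ⟨hb1, hb2⟩ := Finset.mem_filter.mp hb
        have := (hBm b hb1).2
        rw [abs_of_neg (by exact_mod_cast (not_le.mp hb2))] at this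
        constructor <;> linarith [this.1, this.2]
      · intro b hb
        exact (hBm b (Finset.mem_filter.mp hb).1).1
    have : (G.card : ℝ) = ((B.filter (fun b => 0 ≤ b)).card : ℝ) +
        ((B.filter (fun b => ¬ 0 ≤ b)).card : ℝ) := by
      rw [hc]; exact_mod_cast hsplit
    rw [this]
    simp only [h]
    linarith
  set N₀ := ⌊X ^ 2⌋₊ with hN₀
  let P₁ : Finset ℤ := (Finset.Icc 1 N₀).image (fun m : ℕ => ((A * m : ℕ) : ℤ))
  let P₂ : Finset ℤ := (Finset.Icc 1 N₀).image (fun m : ℕ => -((A * m : ℕ) : ℤ))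
  have hsub : F.image Prod.fst ⊆ P₁ ∪ P₂ := by
    intro a ha
    obtain ⟨x, hx, rfl⟩ := Finset.mem_image.mp ha
    obtain ⟨hx0, hxX, -, c, hc⟩ := h1 x hx
    have hcn : c ≠ 0 := by rintro rfl; simp at hc; exact hx0 hc
    have hcb : (c.natAbs : ℝ) ≤ X ^ 2 := by
      have e1 : |(x.1 : ℝ)| = A * (c.natAbs : ℝ) := by
        rw [hc]
        push_cast
        rw [abs_mul, abs_of_nonneg hA'.le, Nat.cast_natAbs]
        push_cast; rfl
      have e2 : (1 : ℝ) ≤ A := by exact_mod_cast hA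
      have e3 : (0 : ℝ) ≤ (c.natAbs : ℝ) := by positivity
      nlinarith
    have hcI : c.natAbs ∈ Finset.Icc 1 N₀ := by
      rw [Finset.mem_Icc]
      exact ⟨Nat.one_le_iff_ne_zero.mpr (Int.natAbs_ne_zero.mpr hcn), Nat.le_floor hcb⟩
    rw [Finset.mem_union]
    rcases le_total 0 c with h0 | h0
    · left
      apply Finset.mem_image.mpr
      refine ⟨c.natAbs, hcI, ?_⟩
      rw [hc]; push_cast
      rw [abs_of_nonneg h0]
    · right
      apply Finset.mem_image.mpr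
      refine ⟨c.natAbs, hcI, ?_⟩
      rw [hc]; push_cast
      rw [abs_of_nonpos h0]; ring
  have hsum : ∑ m ∈ Finset.Icc 1 N₀, h (A * m) ≤
      2 * 2 ^ w * (6 * Y ^ (5 / 6 : ℝ) / (A * K) + X ^ 2) := by
    have e1 : ∑ m ∈ Finset.Icc 1 N₀, h (A * m) =
        2 * 2 ^ w * ((∑ m ∈ Finset.Icc 1 N₀, Ln Y y (A * m)) / K + N₀) := by
      simp only [h]
      rw [← Finset.mul_sum, ← Finset.mul_sum, Finset.sum_add_distrib, ← Finset.sum_div]
      simp
      ring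
    rw [e1]
    have e2 := tel' A y Y hA' hy hY0.le N₀
    have e3 : (N₀ : ℝ) ≤ X ^ 2 := Nat.floor_le (by positivity)
    have e4 : 6 * Y / (A * √y) / K = 6 * Y ^ (5 / 6 : ℝ) / (A * K) := by
      rw [← hsq]
      field_simp
    rw [← e4]
    gcongr
  have hinj : ∀ s : Finset ℕ, Set.InjOn (fun m : ℕ => ((A * m : ℕ) : ℤ)) s := by
    intro s m _ m' _ he
    simp only [Nat.cast_inj] at he
    exact Nat.eq_of_mul_eq_mul_left (by omega) he
  have hS1 : ∑ a ∈ P₁, h (a : ℝ) = ∑ m ∈ Finset.Icc 1 N₀, h (A * m) := by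
    rw [Finset.sum_image (hinj _)]
    apply Finset.sum_congr rfl
    intro m _
    push_cast; rfl
  have hS2 : ∑ a ∈ P₂, h (a : ℝ) = ∑ m ∈ Finset.Icc 1 N₀, h (A * m) := by
    rw [Finset.sum_image]
    · apply Finset.sum_congr rfl
      intro m _
      push_cast
      simp only [h, Ln, abs_neg]
    · intro m hm m' hm' he
      exact hinj _ hm hm' (neg_injective he)
  calc (F.card : ℝ) = ((∑ a ∈ F.image Prod.fst, (F.filter (fun x => x.1 = a)).card : ℕ) : ℝ) := by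
        rw [Finset.card_eq_sum_card_image Prod.fst F]
    _ = ∑ a ∈ F.image Prod.fst, ((F.filter (fun x => x.1 = a)).card : ℝ) := by push_cast; rfl
    _ ≤ ∑ a ∈ F.image Prod.fst, h (a : ℝ) := Finset.sum_le_sum (fun a _ => hfib a)
    _ ≤ ∑ a ∈ P₁ ∪ P₂, h (a : ℝ) :=
        Finset.sum_le_sum_of_subset_of_nonneg hsub (fun a _ _ => hh0 _)
    _ ≤ ∑ a ∈ P₁, h (a : ℝ) + ∑ a ∈ P₂, h (a : ℝ) := by
        rw [← Finset.sum_union_inter]
        have : 0 ≤ ∑ a ∈ P₁ ∩ P₂, h (a : ℝ) := Finset.sum_nonneg (fun a _ => hh0 _)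
        linarith
    _ ≤ 2 * 2 ^ w * (6 * Y ^ (5 / 6 : ℝ) / (A * K) + X ^ 2) +
        2 * 2 ^ w * (6 * Y ^ (5 / 6 : ℝ) / (A * K) + X ^ 2) := by
        rw [hS1, hS2]; linarith
    _ ≤ 24 * 2 ^ w * (Y ^ (5 / 6 : ℝ) / (A * K) + X ^ 2) := by
        have e1 : 0 ≤ Y ^ (5 / 6 : ℝ) / (A * K) := by positivity
        have e2 : 6 * Y ^ (5 / 6 : ℝ) / (A * K) = 6 * (Y ^ (5 / 6 : ℝ) / (A * K)) := by ring
        have e3 : (0 : ℝ) < 2 ^ w := by positivity
        rw [e2]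
        nlinarith [mul_nonneg e3.le e1, mul_nonneg e3.le (sq_nonneg X)]

theorem pera : S_PERA := by
  classical
  refine ⟨24, by norm_num, ?_⟩
  intro X Y n hX hY hn hcop F hF
  set P := n.primeFactors with hP
  have hPp : ∀ p ∈ P, p.Prime := fun p hp => Nat.prime_of_mem_primeFactors hp
  have hP5 : ∀ p ∈ P, 5 ≤ p := by
    intro p hp
    have hpp := hPp p hp
    have hd := Nat.dvd_of_mem_primeFactors hp
    have h2 : p ≠ 2 := by
      rintro rfl
      have := Nat.dvd_gcd hd (by norm_num : (2 : ℕ) ∣ 6)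
      rw [hcop] at this; omega
    have h3 : p ≠ 3 := by
      rintro rfl
      have := Nat.dvd_gcd hd (by norm_num : (3 : ℕ) ∣ 6)
      rw [hcop] at this; omega
    have h4 : p ≠ 4 := by rintro rfl; revert hpp; decide
    have := hpp.two_le
    omega
  have hg : ∀ p ∈ P, 1 ≤ n.factorization p := by
    intro p hp
    exact (hPp p hp).factorization_pos_of_dvd (by omega) (Nat.dvd_of_mem_primeFactors hp)
  -- the modulus
  have hM : n * rd n = ∏ p ∈ P, p ^ (n.factorization p + 1) := by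
    have e1 : ∏ p ∈ P, p ^ n.factorization p = n := Nat.prod_factorization_pow_eq_self (by omega)
    have e2 : rd n = ∏ p ∈ P, p := by
      unfold rd
      rw [Finset.filter_true_of_mem hP5]
    rw [e2]
    conv_lhs => rw [← e1]
    rw [← Finset.prod_mul_distrib]
    apply Finset.prod_congr rfl
    intro p _
    ring
  have hM0 : 0 < n * rd n := by
    rw [hM]
    exact Finset.prod_pos (fun p hp => pow_pos (hPp p hp).pos _)
  have hM0' : (0 : ℝ) < ((n * rd n : ℕ) : ℝ) := by exact_mod_cast hM0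
  let σ : ℤ × ℤ → (P → Fin 3) := fun x p => ⟨sh p (n.factorization p) x.1, sh_lt _ _ _⟩
  set Bd : ℝ := 24 * 2 ^ P.card * (Y ^ (5 / 6 : ℝ) / (n * rd n : ℕ) + X ^ 2) with hBd
  have hBd0 : 0 ≤ Bd := by positivity
  have hLc : ∀ x ∈ F, ∀ p ∈ P, Lc p (n.factorization p) x.1 x.2 := by
    intro x hx p hp
    obtain ⟨-, hm, -, -, hC⟩ := hF x hx
    exact ⟨hC p hp, hm.2 p (hPp p hp)⟩
  have hfib : ∀ s ∈ F.image σ, (F.filter (fun x => σ x = s)).card ≤ ⌊Bd⌋₊ := by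
    intro s _
    apply Nat.le_floor
    let s' : ℕ → ℕ := fun p => if h : p ∈ P then (s ⟨p, h⟩ : ℕ) else 0
    have hs' : ∀ x ∈ F.filter (fun x => σ x = s), ∀ p ∈ P, sh p (n.factorization p) x.1 = s' p := by
      intro x hx p hp
      have e := (Finset.mem_filter.mp hx).2
      have e2 := congrFun e ⟨p, hp⟩
      simp only [s', dif_pos hp]
      rw [← e2]
    set A : ℕ := ∏ p ∈ P, p ^ al (n.factorization p) (s' p) with hA
    set K : ℕ := ∏ p ∈ P, p ^ ka (n.factorization p) (s' p) with hK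
    have hA1 : 1 ≤ A := Finset.prod_pos (fun p hp => pow_pos (hPp p hp).pos _)
    have hK1 : 1 ≤ K := Finset.prod_pos (fun p hp => pow_pos (hPp p hp).pos _)
    have hAK : n * rd n ≤ A * K := by
      rw [hM, hA, hK, ← Finset.prod_mul_distrib]
      apply Finset.prod_le_prod' 
      intro p hp
      rw [← pow_add]
      exact Nat.pow_le_pow_right (hPp p hp).pos (al_ka _ _ (hg p hp))
    have hAK' : ((n * rd n : ℕ) : ℝ) ≤ A * K := by exact_mod_cast hAK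
    have hmain := rega X Y hX hY A K P.card hA1 hK1 (F.filter (fun x => σ x = s)) ?_ ?_
    · refine hmain.trans ?_
      rw [hBd]
      gcongr
    · intro x hx
      have hx' := (Finset.mem_filter.mp hx).1
      obtain ⟨h0, -, hX', hY', -⟩ := hF x hx'
      refine ⟨h0, hX', hY', ?_⟩
      have e : ((A : ℕ) : ℤ) = ∏ p ∈ P, ((p : ℤ) ^ al (n.factorization p) (s' p)) := by
        rw [hA]; push_cast; rfl
      rw [e]
      apply Finset.prod_dvd_of_coprime (cop_pw hPp (fun p => al (n.factorization p) (s' p)))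
      intro p hp
      rw [← hs' x hx p hp]
      exact loc_a (hPp p hp) (hP5 p hp) (hg p hp) (hLc x hx' p hp)
    · intro a B hB u L hL hu
      apply cl P hPp (fun p => ka (n.factorization p) (s' p)) B _ u L hL hu
      intro b hb b' hb' p hp
      have m1 := hB b hb
      have m2 := hB b' hb'
      have e := hs' _ m1 p hp
      simp only at e
      rw [← e]
      exact loc_b (hPp p hp) (hP5 p hp) (hg p hp) (hLc _ (Finset.mem_filter.mp m1).1 p hp)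
        (hLc _ (Finset.mem_filter.mp m2).1 p hp)
  have h3 := Finset.card_le_mul_card_image F ⌊Bd⌋₊ hfib
  have h4 : (F.image σ).card ≤ 3 ^ P.card := by
    calc (F.image σ).card ≤ Fintype.card (P → Fin 3) := Finset.card_le_univ _
      _ = 3 ^ P.card := by simp
  have h5 : (⌊Bd⌋₊ : ℝ) ≤ Bd := Nat.floor_le hBd0
  calc (F.card : ℝ) ≤ ((⌊Bd⌋₊ * (F.image σ).card : ℕ) : ℝ) := by exact_mod_cast h3
    _ ≤ ((⌊Bd⌋₊ * 3 ^ P.card : ℕ) : ℝ) := by exact_mod_cast Nat.mul_le_mul_left _ h4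
    _ = (⌊Bd⌋₊ : ℝ) * 3 ^ P.card := by push_cast; ring
    _ ≤ Bd * 3 ^ P.card := by gcongr
    _ = 24 * 6 ^ P.card * (Y ^ (5 / 6 : ℝ) / (n * rd n : ℕ) + X ^ 2) := by
        rw [hBd]
        have : (6 : ℝ) ^ P.card = 2 ^ P.card * 3 ^ P.card := by rw [← mul_pow]; norm_num
        rw [this]; ring

end Pool.Agent.N945.SZ
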